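import Mathlib

/-!
# Trace monomials in coordinates

`α` is the set of variables, `ι` the index set of the matrices. A multilinear function of the
variables is given by its coefficients, a function of two words `u v : α → ι`.
-/

set_option autoImplicit false
set_option linter.unusedSectionVars false

namespace Pool.Agent.K1H10.MC

open Equiv

/-- coefficient functions -/
abbrev V (F : Type) (ι α : Type) : Type := (α → ι) → (α → ι) → F

section

variable {F : Type} [Field F] {ι : Type} [DecidableEq ι] {α : Type} [Fintype α] [DecidableEq α]

/-- the trace monomial of a permutation -/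
def T (F : Type) [Field F] {ι : Type} [DecidableEq ι] {α : Type} [Fintype α]
    (σ : Perm α) : V F ι α := fun u v => if v = u ∘ σ then 1 else 0

/-- the space of trace functions -/
def S (F : Type) [Field F] (ι : Type) [DecidableEq ι] (α : Type) [Fintype α] :
    Submodule F (V F ι α) := Submodule.span F (Set.range (T F))

/-- all elements are in one cycle -/
def Tr (σ : Perm α) : Prop := ∀ a b, σ.SameCycle a b

/-- the space spanned by the traces of words -/
def Q (F : Type) [Field F] (ι : Type) [DecidableEq ι] (α : Type) [Fintype α] :
    Submodule F (V F ι α) := Submodule.span F {f | ∃ σ : Perm α, Tr σ ∧ f = T F σ}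

theorem Q_le_S : Q F ι α ≤ S F ι α := by
  unfold Q S
  apply Submodule.span_mono
  rintro f ⟨σ, -, rfl⟩
  exact ⟨σ, rfl⟩

theorem T_mem_S (σ : Perm α) : T F σ ∈ S F ι α := Submodule.subset_span ⟨σ, rfl⟩

theorem T_mem_Q {σ : Perm α} (h : Tr σ) : T F σ ∈ Q F ι α := Submodule.subset_span ⟨σ, h, rfl⟩

/-- right multiplication -/
def R (F : Type) [Field F] (ι : Type) (π : Perm α) : V F ι α →ₗ[F] V F ι α where
  toFun f := fun u v => f u (v ∘ π.symm)
  map_add' _ _ := rfl
  map_smul' _ _ := rfl

theorem R_T (σ π : Perm α) : R F ι π (T F σ) = T F (σ * π) := by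
  funext u v
  show (if v ∘ π.symm = u ∘ σ then (1 : F) else 0) = if v = u ∘ (σ * π) then 1 else 0
  congr 1
  apply propext
  constructor
  · intro h
    funext x
    have := congrFun h (π x)
    simpa using this
  · intro h
    subst h
    funext x
    simp

/-- the merging lemma for cycles -/
theorem merge_cycles (π : Perm α) (x z : α) (h : ¬ π.SameCycle x z) (a : α)
    (ha : π.SameCycle x a ∨ π.SameCycle z a) : (π * swap x z).SameCycle x a := by
  classical
  set π' := π * swap x z with hπ'
  have hx : π' x = π z := by simp [hπ']
  have hz : π' z = π x := by simp [hπ']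
  have ho : ∀ y, y ≠ x → y ≠ z → π' y = π y := by
    intro y h1 h2
    simp [hπ', swap_apply_of_ne_of_ne h1 h2]
  have hcl : ∀ y, π'.SameCycle x y → π'.SameCycle x (π' y) := fun y hy =>
    Equiv.Perm.sameCycle_apply_right.2 hy
  have hzA : π'.SameCycle x z := by
    by_contra hcon
    have key : ∀ n : ℕ, π'.SameCycle x ((π ^ (n + 1)) z) := by
      intro n
      induction n with
      | zero =>
        have := hcl x (Equiv.Perm.SameCycle.refl _ _)
        rw [hx] at this
        simpa using this
      | succ n ih =>
        have h1 : (π ^ (n + 1)) z ≠ x := by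
          intro h1
          apply h
          exact (show π.SameCycle z x from ⟨(n + 1 : ℕ), by rw [zpow_natCast]; exact h1⟩).symm
        have h2 : (π ^ (n + 1)) z ≠ z := by
          intro h2
          rw [h2] at ih
          exact hcon ih
        have := hcl _ ih
        rw [ho _ h1 h2] at this
        rw [pow_succ', Equiv.Perm.mul_apply]
        exact this
    have h3 := key (orderOf π - 1)
    rw [Nat.sub_add_cancel (orderOf_pos π), pow_orderOf_eq_one] at h3
    exact hcon h3
  have hcl2 : ∀ y, π'.SameCycle x y → π'.SameCycle x (π y) := by
    intro y hy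
    by_cases h1 : y = x
    · subst h1
      rw [← hz]
      exact hcl _ hzA
    by_cases h2 : y = z
    · subst h2
      rw [← hx]
      exact hcl _ (Equiv.Perm.SameCycle.refl _ _)
    rw [← ho y h1 h2]
    exact hcl _ hy
  have hpow : ∀ (n : ℕ) y, π'.SameCycle x y → π'.SameCycle x ((π ^ n) y) := by
    intro n
    induction n with
    | zero => intro y hy; simpa using hy
    | succ n ih =>
      intro y hy
      rw [pow_succ', Equiv.Perm.mul_apply]
      exact hcl2 _ (ih y hy)
  rcases ha with ha | ha
  · obtain ⟨n, hn⟩ := ha.exists_nat_pow_eq
    rw [← hn]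
    exact hpow n x (Equiv.Perm.SameCycle.refl _ _)
  · obtain ⟨n, hn⟩ := ha.exists_nat_pow_eq
    rw [← hn]
    exact hpow n z hzA

variable [Fintype ι] [CharZero F]

/-- the identity for functions which are alternating in `|ι| ^ 2` variables -/
theorem alt_identity {N : ℕ} (hN : N = Fintype.card ι * Fintype.card ι) (f : V F ι α)
    (x : Fin N → α) (hx : Function.Injective x)
    (halt : ∀ i j, i ≠ j → ∀ u v, f (u ∘ swap (x i) (x j)) (v ∘ swap (x i) (x j)) = - f u v)
    (z : α) (hz : ∀ i, x i ≠ z) :
    ∑ i, R F ι (swap (x i) z) f = (Fintype.card ι : F) • f := by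
  have halt0 : ∀ i j, i ≠ j → ∀ u v, u (x i) = u (x j) → v (x i) = v (x j) → f u v = 0 := by
    intro i j hij u v h1 h2
    have h3 := halt i j hij u v
    have e : ∀ w : α → ι, w (x i) = w (x j) → w ∘ swap (x i) (x j) = w := by
      intro w hw
      funext y
      simp only [Function.comp]
      by_cases h : y = x i
      · subst h; rw [swap_apply_left, hw]
      by_cases h' : y = x j
      · subst h'; rw [swap_apply_right, hw]
      rw [swap_apply_of_ne_of_ne h h']
    rw [e u h1, e v h2] at h3
    have : (2 : F) * f u v = 0 := by linear_combination h3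
    rcases mul_eq_zero.1 this with h | h
    · exact absurd h two_ne_zero
    · exact h
  funext u v
  rw [Finset.sum_apply, Finset.sum_apply]
  show ∑ i, f u (v ∘ (swap (x i) z).symm) = (Fintype.card ι : F) * f u v
  simp only [symm_swap]
  set p : Fin N → ι × ι := fun i => (u (x i), v (x i)) with hp
  by_cases hinj : Function.Injective p
  · have hbij : Function.Bijective p := by
      rw [Fintype.bijective_iff_injective_and_card]
      refine ⟨hinj, ?_⟩
      rw [Fintype.card_fin, Fintype.card_prod, hN]
    have hterm : ∀ i, f u (v ∘ swap (x i) z) = if (p i).2 = v z then f u v else 0 := by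
      intro i
      split_ifs with h
      · congr 1
        funext y
        simp only [Function.comp]
        by_cases h1 : y = x i
        · subst h1; rw [swap_apply_left]; exact h.symm
        by_cases h2 : y = z
        · subst h2; rw [swap_apply_right]; exact h
        rw [swap_apply_of_ne_of_ne h1 h2]
      · obtain ⟨j, hj⟩ := hbij.2 (u (x i), v z)
        have hij : i ≠ j := by
          rintro rfl
          apply h
          rw [hj]
        apply halt0 i j hij
        · exact (congrArg Prod.fst hj).symm
        · simp only [Function.comp, swap_apply_left]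
          have : x j ≠ x i := fun h => hij (hx h).symm
          rw [swap_apply_of_ne_of_ne this (hz j)]
          exact (congrArg Prod.snd hj).symm
    rw [Finset.sum_congr rfl (fun i _ => hterm i)]
    calc ∑ i, (if (p i).2 = v z then f u v else 0)
        = ∑ q : ι × ι, (if q.2 = v z then f u v else 0) :=
          (Equiv.ofBijective p hbij).sum_comp (fun q : ι × ι => if q.2 = v z then f u v else 0)
      _ = (Fintype.card ι : F) * f u v := by
          rw [Fintype.sum_prod_type]
          simp
  · obtain ⟨i, j, hpij, hij⟩ : ∃ i j, p i = p j ∧ i ≠ j := by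
      simpa [Function.Injective] using hinj
    have h1 : u (x i) = u (x j) := congrArg Prod.fst hpij
    have h2 : v (x i) = v (x j) := congrArg Prod.snd hpij
    rw [halt0 i j hij u v h1 h2, mul_zero]
    have hsplit : ∑ l, f u (v ∘ swap (x l) z) =
        f u (v ∘ swap (x i) z) + f u (v ∘ swap (x j) z) := by
      rw [← Finset.sum_subset (Finset.subset_univ {i, j}), Finset.sum_pair hij]
      intro l _ hl
      simp only [Finset.mem_insert, Finset.mem_singleton, not_or] at hl
      apply halt0 i j hij u _ h1
      simp only [Function.comp]
      have e1 : x i ≠ x l := fun h => hl.1 (hx h).symm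
      have e2 : x j ≠ x l := fun h => hl.2 (hx h).symm
      rw [swap_apply_of_ne_of_ne e1 (hz i), swap_apply_of_ne_of_ne e2 (hz j), h2]
    rw [hsplit]
    have h4 := halt i j hij u (v ∘ swap (x i) z)
    have e3 : u ∘ swap (x i) (x j) = u := by
      funext y
      simp only [Function.comp]
      by_cases h : y = x i
      · subst h; rw [swap_apply_left, h1]
      by_cases h' : y = x j
      · subst h'; rw [swap_apply_right, h1]
      rw [swap_apply_of_ne_of_ne h h']
    have e4 : (v ∘ swap (x i) z) ∘ swap (x i) (x j) = v ∘ swap (x j) z := by
      have hxij : x i ≠ x j := fun h => hij (hx h)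
      funext y
      simp only [Function.comp]
      by_cases h : y = x i
      · subst h
        rw [swap_apply_left, swap_apply_of_ne_of_ne hxij.symm (hz j),
          swap_apply_of_ne_of_ne hxij (hz i), h2]
      by_cases h' : y = x j
      · subst h'
        rw [swap_apply_right, swap_apply_left, swap_apply_left]
      rw [swap_apply_of_ne_of_ne h h']
      by_cases h'' : y = z
      · subst h''
        rw [swap_apply_right, swap_apply_right, h2]
      rw [swap_apply_of_ne_of_ne h h'', swap_apply_of_ne_of_ne h' h'']
    rw [e3, e4] at h4
    rw [h4]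
    ring

end

end Pool.Agent.K1H10.MC
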