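import Pool.Agent.K1H10.MC.Contract

/-!
# The dimension bound for the ideal generated by the central function in disjoint blocks
-/

set_option autoImplicit false
set_option linter.unusedSectionVars false

namespace Pool.Agent.K1H10.MC

open Equiv

section

variable {F : Type} [Field F] {ι : Type} [DecidableEq ι] [Fintype ι]
  {α : Type} [Fintype α] [DecidableEq α]

theorem exists_c_ne {N : ℕ} (hN : N = Fintype.card ι * Fintype.card ι) :
    ∃ u v : B N → ι, c F ι N u v = 1 := by
  have hcard : Fintype.card (Fin N) = Fintype.card (ι × ι) := by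
    rw [Fintype.card_fin, Fintype.card_prod, hN]
  let e : Fin N ≃ ι × ι := Fintype.equivOfCardEq hcard
  refine ⟨Sum.elim (fun i => (e i).1) (fun j => (e ((finRotate N).symm j)).2),
    Sum.elim (fun i => (e i).2) (fun j => (e j).1), ?_⟩
  unfold c
  have : cmat F (Sum.elim (fun i => (e i).1) (fun j => (e ((finRotate N).symm j)).2))
      (Sum.elim (fun i => (e i).2) (fun j => (e j).1)) = 1 := by
    ext i j
    simp only [cmat, Matrix.of_apply, Sum.elim_inl, Sum.elim_inr, symm_apply_apply,
      Matrix.one_apply, Prod.mk.eta, EmbeddingLike.apply_eq_iff_eq]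
  rw [this, Matrix.det_one]

theorem c_int (N : ℕ) : ∃ z : (B N → ι) → (B N → ι) → ℤ, ∀ u v, c F ι N u v = (z u v : F) := by
  refine ⟨fun u v => (Matrix.of fun i j : Fin N => if (u (Sum.inl i), v (Sum.inl i)) =
    (v (Sum.inr j), u (Sum.inr (finRotate N j))) then (1 : ℤ) else 0).det, ?_⟩
  intro u v
  unfold c
  have h := RingHom.map_det (Int.castRingHom F) (Matrix.of fun i j : Fin N =>
    if (u (Sum.inl i), v (Sum.inl i)) =
      (v (Sum.inr j), u (Sum.inr (finRotate N j))) then (1 : ℤ) else 0)
  refine Eq.trans ?_ h.symm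
  congr 1
  ext i j
  simp only [cmat, Matrix.of_apply, RingHom.mapMatrix_apply, Matrix.map_apply]
  split_ifs <;> simp

/-- the square norm of the central function -/
def nc (F : Type) [Field F] (ι : Type) [DecidableEq ι] [Fintype ι] (N : ℕ) : F :=
  ∑ a : B N → ι, ∑ a' : B N → ι, c F ι N a a' * c F ι N a a'

theorem nc_ne [CharZero F] {N : ℕ} (hN : N = Fintype.card ι * Fintype.card ι) :
    nc F ι N ≠ 0 := by
  obtain ⟨z, hz⟩ := c_int (F := F) (ι := ι) N
  obtain ⟨u, v, huv⟩ := exists_c_ne (F := F) hN
  have e : nc F ι N = ((∑ a : B N → ι, ∑ a' : B N → ι, z a a' * z a a' : ℤ) : F) := by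
    unfold nc
    simp only [hz]
    push_cast
    rfl
  rw [e, Int.cast_ne_zero]
  apply ne_of_gt
  apply Finset.sum_pos'
  · intro a _
    exact Finset.sum_nonneg fun a' _ => mul_self_nonneg _
  · refine ⟨u, Finset.mem_univ _, ?_⟩
    apply Finset.sum_pos'
    · intro a' _
      exact mul_self_nonneg _
    · refine ⟨v, Finset.mem_univ _, ?_⟩
      have h1 : z u v ≠ 0 := by
        intro h
        rw [hz, h] at huv
        simp at huv
      exact mul_self_pos.2 h1

theorem extend_comp_self {N : ℕ} (b : B N ↪ α) (a : B N → ι) (u : α → ι) :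
    Function.extend b a u ∘ b = a := by
  funext y
  exact b.injective.extend_apply a u y

theorem extend_extend {N : ℕ} (b : B N ↪ α) (a a' : B N → ι) (u : α → ι) :
    Function.extend b a (Function.extend b a' u) = Function.extend b a u := by
  funext x
  by_cases hx : ∃ y, b y = x
  · obtain ⟨y, rfl⟩ := hx
    rw [b.injective.extend_apply, b.injective.extend_apply]
  · rw [Function.extend_apply' _ _ _ hx, Function.extend_apply' _ _ _ hx,
      Function.extend_apply' _ _ _ hx]

theorem extend_self {N : ℕ} (b : B N ↪ α) (u : α → ι) :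
    Function.extend b (u ∘ b) u = u := by
  funext x
  by_cases hx : ∃ y, b y = x
  · obtain ⟨y, rfl⟩ := hx
    rw [b.injective.extend_apply]; rfl
  · rw [Function.extend_apply' _ _ _ hx]

theorem extend_comp_disj {N : ℕ} (b b' : B N ↪ α) (h : ∀ y y', b y ≠ b' y') (a : B N → ι)
    (u : α → ι) : Function.extend b a u ∘ b' = u ∘ b' := by
  funext y
  exact Function.extend_apply' _ _ _ (fun ⟨y', hy'⟩ => h y' y hy')

theorem extend_comm_disj {N : ℕ} (b b' : B N ↪ α) (h : ∀ y y', b y ≠ b' y') (a a' : B N → ι)
    (u : α → ι) : Function.extend b a (Function.extend b' a' u) =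
      Function.extend b' a' (Function.extend b a u) := by
  funext x
  by_cases hx : ∃ y, b y = x
  · obtain ⟨y, rfl⟩ := hx
    have hx' : ¬ ∃ y', b' y' = b y := fun ⟨y', hy'⟩ => h y y' hy'.symm
    rw [b.injective.extend_apply, Function.extend_apply' _ _ _ hx', b.injective.extend_apply]
  · rw [Function.extend_apply' _ _ _ hx]
    by_cases hx' : ∃ y', b' y' = x
    · obtain ⟨y', rfl⟩ := hx'
      rw [b'.injective.extend_apply, b'.injective.extend_apply]
    · rw [Function.extend_apply' _ _ _ hx', Function.extend_apply' _ _ _ hx',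
        Function.extend_apply' _ _ _ hx]

theorem pr_PiB {N : ℕ} (b : B N ↪ α) (f : V F ι α) :
    pr F ι b (PiB F ι b f) = nc F ι N • pr F ι b f := by
  funext u v
  rw [pr_apply]
  show _ = nc F ι N * pr F ι b f u v
  unfold nc
  rw [Finset.sum_mul]
  refine Finset.sum_congr rfl fun a _ => ?_
  rw [Finset.sum_mul]
  refine Finset.sum_congr rfl fun a' _ => ?_
  rw [PiB_apply, extend_comp_self, extend_comp_self, pr_apply, pr_apply]
  simp only [extend_extend]
  ring

theorem pr_comm {N : ℕ} (b b' : B N ↪ α) (h : ∀ y y', b y ≠ b' y') (f : V F ι α) :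
    pr F ι b (pr F ι b' f) = pr F ι b' (pr F ι b f) := by
  funext u v
  rw [pr_apply, pr_apply]
  simp only [pr_apply, Finset.mul_sum]
  -- four sums
  have e : ∀ (x y z w : B N → ι),
      c F ι N x y * (c F ι N z w * f (Function.extend b' z (Function.extend b x u))
        (Function.extend b' w (Function.extend b y v))) =
      c F ι N z w * (c F ι N x y * f (Function.extend b x (Function.extend b' z u))
        (Function.extend b y (Function.extend b' w v))) := by
    intro x y z w
    rw [extend_comm_disj b b' h, extend_comm_disj b b' h]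
    ring
  simp only [e]
  calc ∑ x : B N → ι, ∑ y : B N → ι, ∑ z : B N → ι, ∑ w : B N → ι,
        c F ι N z w * (c F ι N x y * f (Function.extend b x (Function.extend b' z u))
        (Function.extend b y (Function.extend b' w v)))
      = ∑ x : B N → ι, ∑ z : B N → ι, ∑ y : B N → ι, ∑ w : B N → ι,
        c F ι N z w * (c F ι N x y * f (Function.extend b x (Function.extend b' z u))
        (Function.extend b y (Function.extend b' w v))) :=
        Finset.sum_congr rfl fun x _ => Finset.sum_comm
    _ = ∑ z : B N → ι, ∑ x : B N → ι, ∑ w : B N → ι, ∑ y : B N → ι,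
        c F ι N z w * (c F ι N x y * f (Function.extend b x (Function.extend b' z u))
        (Function.extend b y (Function.extend b' w v))) := by
        rw [Finset.sum_comm]
        exact Finset.sum_congr rfl fun z _ => Finset.sum_congr rfl fun x _ => Finset.sum_comm
    _ = _ := Finset.sum_congr rfl fun z _ => Finset.sum_comm

theorem pr_PiB_disj {N : ℕ} (b b' : B N ↪ α) (h : ∀ y y', b y ≠ b' y') (f : V F ι α)
    (hf : pr F ι b f = 0) : pr F ι b (PiB F ι b' f) = 0 := by
  have e : pr F ι b (PiB F ι b' f) = fun u v => c F ι N (u ∘ b') (v ∘ b') *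
      pr F ι b (pr F ι b' f) u v := by
    funext u v
    rw [pr_apply, pr_apply, Finset.mul_sum]
    refine Finset.sum_congr rfl fun a _ => ?_
    rw [Finset.mul_sum]
    refine Finset.sum_congr rfl fun a' _ => ?_
    rw [PiB_apply, extend_comp_disj b b' h, extend_comp_disj b b' h]
    ring
  rw [e, pr_comm b b' h, hf, map_zero]
  funext u v
  simp

/-- the functions killed by all pairings -/
def Ker {J : Type} {N : ℕ} (b : J → (B N ↪ α)) (s : Set J) : Submodule F (V F ι α) where
  carrier := {f | ∀ j ∈ s, pr F ι (b j) f = 0}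
  add_mem' := by
    intro f g hf hg j hj
    rw [map_add, hf j hj, hg j hj, add_zero]
  zero_mem' := by
    intro j _
    exact map_zero _
  smul_mem' := by
    intro t f hf j hj
    rw [map_smul, hf j hj, smul_zero]

theorem mem_Ker {J : Type} {N : ℕ} (b : J → (B N ↪ α)) (s : Set J) (f : V F ι α) :
    f ∈ Ker b s ↔ ∀ j ∈ s, pr F ι (b j) f = 0 := Iff.rfl

/-- words which avoid `w` in all blocks -/
def Avoid {J : Type} {N : ℕ} (b : J → (B N ↪ α)) (w : (B N → ι) × (B N → ι)) :
    Set ((α → ι) × (α → ι)) :=
  {q | ∀ j, (q.1 ∘ b j, q.2 ∘ b j) ≠ w}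

theorem Ker_zero {J : Type} [Fintype J] {N : ℕ} (b : J → (B N ↪ α))
    (hb : ∀ i j, i ≠ j → ∀ y y', b i y ≠ b j y') (w : (B N → ι) × (B N → ι))
    (hw : c F ι N w.1 w.2 = 1) (f : V F ι α) (hf : f ∈ Ker b Set.univ)
    (h0 : ∀ q ∈ Avoid b w, f q.1 q.2 = 0) : f = 0 := by
  classical
  have key : ∀ (n : ℕ) (u v : α → ι),
      (Finset.univ.filter (fun j => (u ∘ b j, v ∘ b j) = w)).card = n → f u v = 0 := by
    intro n
    induction n using Nat.strong_induction_on with
    | _ n ih =>
      intro u v hn
      by_cases hA : (u, v) ∈ Avoid b w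
      · exact h0 _ hA
      obtain ⟨j, hj⟩ : ∃ j, (u ∘ b j, v ∘ b j) = w := by
        simpa [Avoid] using hA
      have h1 := congrFun (congrFun (hf j (Set.mem_univ j)) u) v
      rw [pr_apply, Finset.sum_eq_single w.1, Finset.sum_eq_single w.2] at h1
      · rw [hw, one_mul] at h1
        have e1 : Function.extend (b j) w.1 u = u := by
          rw [← hj]; exact extend_self (b j) u
        have e2 : Function.extend (b j) w.2 v = v := by
          rw [← hj]; exact extend_self (b j) v
        rw [e1, e2] at h1
        exact h1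
      · intro a' _ ha'
        have : f (Function.extend (b j) w.1 u) (Function.extend (b j) a' v) = 0 := by
          refine ih _ ?_ _ _ rfl
          rw [← hn]
          apply Finset.card_lt_card
          rw [Finset.ssubset_iff_of_subset]
          · refine ⟨j, by simp [hj], ?_⟩
            simp only [Finset.mem_filter, Finset.mem_univ, true_and]
            rw [extend_comp_self, extend_comp_self]
            intro h
            exact ha' (congrArg Prod.snd h)
          · intro i hi
            simp only [Finset.mem_filter, Finset.mem_univ, true_and] at hi ⊢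
            by_cases hij : j = i
            · subst hij
              exact hj
            · rw [extend_comp_disj _ _ (hb j i hij), extend_comp_disj _ _ (hb j i hij)] at hi
              exact hi
        rw [this, mul_zero]
      · intro h; exact absurd (Finset.mem_univ _) h
      · intro a _ ha
        apply Finset.sum_eq_zero
        intro a' _
        have : f (Function.extend (b j) a u) (Function.extend (b j) a' v) = 0 := by
          refine ih _ ?_ _ _ rfl
          rw [← hn]
          apply Finset.card_lt_card
          rw [Finset.ssubset_iff_of_subset]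
          · refine ⟨j, by simp [hj], ?_⟩
            simp only [Finset.mem_filter, Finset.mem_univ, true_and]
            rw [extend_comp_self, extend_comp_self]
            intro h
            exact ha (congrArg Prod.fst h)
          · intro i hi
            simp only [Finset.mem_filter, Finset.mem_univ, true_and] at hi ⊢
            by_cases hij : j = i
            · subst hij
              exact hj
            · rw [extend_comp_disj _ _ (hb j i hij), extend_comp_disj _ _ (hb j i hij)] at hi
              exact hi
        rw [this, mul_zero]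
      · intro h; exact absurd (Finset.mem_univ _) h
  funext u v
  exact key _ u v rfl

theorem finrank_Ker {J : Type} [Fintype J] {N : ℕ} (b : J → (B N ↪ α))
    (hb : ∀ i j, i ≠ j → ∀ y y', b i y ≠ b j y') (w : (B N → ι) × (B N → ι))
    (hw : c F ι N w.1 w.2 = 1) :
    Module.finrank F (Ker (F := F) (ι := ι) b Set.univ) ≤ Nat.card (Avoid b w) := by
  classical
  let res : Ker (F := F) (ι := ι) b Set.univ →ₗ[F] (Avoid b w → F) :=
    { toFun := fun f q => f.1 q.1.1 q.1.2
      map_add' := fun _ _ => rfl
      map_smul' := fun _ _ => rfl }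
  have hinj : Function.Injective res := by
    rw [injective_iff_map_eq_zero]
    intro f hf
    apply Subtype.ext
    apply Ker_zero b hb w hw f.1 f.2
    intro q hq
    exact congrFun hf ⟨q, hq⟩
  have := LinearMap.finrank_le_finrank_of_injective hinj
  rw [Module.finrank_fintype_fun_eq_card] at this
  rw [Nat.card_eq_fintype_card]
  exact this

variable [CharZero F]

theorem S_le_sup {J : Type} [Fintype J] {N : ℕ} (hN : N = Fintype.card ι * Fintype.card ι)
    (hN2 : 2 ≤ N) (b : J → (B N ↪ α))
    (hb : ∀ i j, i ≠ j → ∀ y y', b i y ≠ b j y') (W : Submodule F (V F ι α))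
    (hW : ∀ j, ∀ f ∈ S F ι α, PiB F ι (b j) f ∈ W) :
    S F ι α ≤ (S F ι α ⊓ W) ⊔ Ker b Set.univ := by
  classical
  have hnc := nc_ne (F := F) hN
  have key : ∀ s : Finset J, ∀ f ∈ S F ι α, ∃ g ∈ S F ι α ⊓ W,
      ∃ h ∈ S F ι α, h ∈ Ker b (s : Set J) ∧ f = g + h := by
    intro s
    induction s using Finset.induction_on with
    | empty =>
      intro f hf
      exact ⟨0, zero_mem _, f, hf, fun j hj => absurd hj (by simp), (zero_add f).symm⟩
    | insert i s his ih =>
      intro f hf
      obtain ⟨g, hg, h, hh, hk, rfl⟩ := ih f hf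
      have hP1 : (nc F ι N)⁻¹ • PiB F ι (b i) h ∈ S F ι α :=
        Submodule.smul_mem _ _ (Q_le_S (PiB_mem_Q hN hN2 (b i) h hh))
      have hP2 : (nc F ι N)⁻¹ • PiB F ι (b i) h ∈ W := Submodule.smul_mem _ _ (hW i h hh)
      refine ⟨g + (nc F ι N)⁻¹ • PiB F ι (b i) h, add_mem hg ⟨hP1, hP2⟩,
        h - (nc F ι N)⁻¹ • PiB F ι (b i) h, sub_mem hh hP1, ?_, by abel⟩
      intro j hj
      rw [Finset.coe_insert, Set.mem_insert_iff] at hj
      rw [map_sub, map_smul]
      rcases hj with rfl | hj
      · rw [pr_PiB, smul_smul, inv_mul_cancel₀ hnc, one_smul, sub_self]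
      · have hne : j ≠ i := fun h => his (h ▸ hj)
        rw [hk j hj, pr_PiB_disj (b j) (b i) (hb j i hne) h (hk j hj), smul_zero, sub_zero]
  intro f hf
  obtain ⟨g, hg, h, -, hk, rfl⟩ := key Finset.univ f hf
  rw [Finset.coe_univ] at hk
  exact Submodule.add_mem_sup hg hk

theorem finrank_S_le {J : Type} [Fintype J] {N : ℕ} (hN : N = Fintype.card ι * Fintype.card ι)
    (hN2 : 2 ≤ N) (b : J → (B N ↪ α))
    (hb : ∀ i j, i ≠ j → ∀ y y', b i y ≠ b j y') (w : (B N → ι) × (B N → ι))
    (hw : c F ι N w.1 w.2 = 1) (W : Submodule F (V F ι α))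
    (hW : ∀ j, ∀ f ∈ S F ι α, PiB F ι (b j) f ∈ W) :
    Module.finrank F (S F ι α) ≤
      Module.finrank F (S F ι α ⊓ W : Submodule F (V F ι α)) + Nat.card (Avoid b w) := by
  classical
  calc Module.finrank F (S F ι α)
      ≤ Module.finrank F ((S F ι α ⊓ W) ⊔ Ker b Set.univ : Submodule F (V F ι α)) :=
        Submodule.finrank_mono (S_le_sup hN hN2 b hb W hW)
    _ ≤ Module.finrank F (S F ι α ⊓ W : Submodule F (V F ι α)) +
        Module.finrank F (Ker (F := F) (ι := ι) b Set.univ) :=
        Submodule.finrank_add_le_finrank_add_finrank _ _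
    _ ≤ _ := Nat.add_le_add_left (finrank_Ker b hb w hw) _

end

end Pool.Agent.K1H10.MC
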