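import Pool.Agent.K1H10.MC.Basic

/-!
# A lower bound for the dimension of the space of trace functions
-/

set_option autoImplicit false
set_option linter.unusedSectionVars false

namespace Pool.Agent.K1H10.MC

open Equiv

/-- **The Welch bound** -/
theorem welch {X I : Type} [Fintype X] [Fintype I] (t : I → EuclideanSpace ℝ X) :
    (∑ i, inner ℝ (t i) (t i)) ^ 2 ≤
      (Module.finrank ℝ (Submodule.span ℝ (Set.range t)) : ℝ) *
        ∑ i, ∑ j, (inner ℝ (t i) (t j)) ^ 2 := by
  classical
  set E := Submodule.span ℝ (Set.range t) with hE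
  have ht : ∀ i, t i ∈ E := fun i => Submodule.subset_span ⟨i, rfl⟩
  let e := stdOrthonormalBasis ℝ E
  set r := Module.finrank ℝ E with hr
  let a : I → Fin r → ℝ := fun i l => inner ℝ (⟨t i, ht i⟩ : E) (e l)
  have hin : ∀ i j, inner ℝ (t i) (t j) = ∑ l, a i l * a j l := by
    intro i j
    have h1 : inner ℝ (t i) (t j) = inner ℝ (⟨t i, ht i⟩ : E) (⟨t j, ht j⟩ : E) := rfl
    rw [h1, ← e.sum_inner_mul_inner]
    refine Finset.sum_congr rfl fun l _ => ?_
    rw [real_inner_comm (⟨t j, ht j⟩ : E) (e l)]
  have h1 : ∑ i, inner ℝ (t i) (t i) = ∑ l, ∑ i, a i l * a i l := by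
    simp only [hin]
    exact Finset.sum_comm
  have h2 : ∑ i, ∑ j, (inner ℝ (t i) (t j)) ^ 2 =
      ∑ l, ∑ l', (∑ i, a i l * a i l') ^ 2 := by
    simp only [hin, pow_two, Finset.sum_mul_sum]
    calc ∑ i, ∑ j, ∑ l, ∑ l', a i l * a j l * (a i l' * a j l')
        = ∑ i, ∑ l, ∑ j, ∑ l', a i l * a j l * (a i l' * a j l') :=
          Finset.sum_congr rfl fun i _ => Finset.sum_comm
      _ = ∑ l, ∑ i, ∑ l', ∑ j, a i l * a j l * (a i l' * a j l') := by
          rw [Finset.sum_comm]
          exact Finset.sum_congr rfl fun l _ => Finset.sum_congr rfl fun i _ => Finset.sum_comm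
      _ = ∑ l, ∑ l', ∑ i, ∑ j, a i l * a i l' * (a j l * a j l') := by
          refine Finset.sum_congr rfl fun l _ => ?_
          rw [Finset.sum_comm]
          refine Finset.sum_congr rfl fun l' _ => Finset.sum_congr rfl fun i _ =>
            Finset.sum_congr rfl fun j _ => ?_
          ring
  rw [h1, h2]
  calc (∑ l, ∑ i, a i l * a i l) ^ 2
      ≤ (Finset.univ : Finset (Fin r)).card * ∑ l, (∑ i, a i l * a i l) ^ 2 :=
        sq_sum_le_card_mul_sum_sq
    _ ≤ (r : ℝ) * ∑ l, ∑ l', (∑ i, a i l * a i l') ^ 2 := by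
        rw [Finset.card_univ, Fintype.card_fin]
        apply mul_le_mul_of_nonneg_left _ (Nat.cast_nonneg r)
        apply Finset.sum_le_sum
        intro l _
        exact Finset.single_le_sum (f := fun l' => (∑ i, a i l * a i l') ^ 2)
          (fun l' _ => sq_nonneg _) (Finset.mem_univ l)

/-- linear independence of integer vectors does not depend on the field -/
theorem li_transfer {F : Type} [Field F] [CharZero F] {X κ : Type} [Fintype κ] (t : κ → X → ℤ)
    (h : LinearIndependent ℝ (fun i => (fun x => (t i x : ℝ)))) :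
    LinearIndependent F (fun i => (fun x => (t i x : F))) := by
  rw [Fintype.linearIndependent_iff] at h ⊢
  intro g hg
  by_contra hcon
  push Not at hcon
  obtain ⟨i0, hi0⟩ := hcon
  obtain ⟨φ, hφ⟩ : ∃ φ : Module.Dual ℚ F, φ (g i0) ≠ 0 := by
    by_contra hcon
    push Not at hcon
    exact hi0 ((Module.forall_dual_apply_eq_zero_iff ℚ (g i0)).1 hcon)
  have h1 : ∀ x, ∑ i, (t i x : ℚ) * φ (g i) = 0 := by
    intro x
    have h2 := congrFun hg x
    rw [Finset.sum_apply] at h2
    have h3 := congrArg φ h2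
    rw [map_sum] at h3
    simp only [Pi.smul_apply, Pi.zero_apply, map_zero, smul_eq_mul] at h3
    rw [← h3]
    refine Finset.sum_congr rfl fun i _ => ?_
    have : g i * (t i x : F) = (t i x : ℚ) • g i := by
      rw [Rat.smul_def]
      push_cast
      ring
    rw [this, map_smul, smul_eq_mul]
  have h4 := h (fun i => (φ (g i) : ℝ)) (by
    funext x
    rw [Finset.sum_apply]
    have := congrArg (fun q : ℚ => (q : ℝ)) (h1 x)
    push_cast at this
    simp only [Pi.smul_apply, smul_eq_mul, Pi.zero_apply]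
    rw [← this]
    exact Finset.sum_congr rfl fun i _ => mul_comm _ _) i0
  exact hφ (by exact_mod_cast h4)

section

variable {ι : Type} [DecidableEq ι] [Fintype ι]

theorem T_int (F : Type) [Field F] {α : Type} [Fintype α] [DecidableEq α] (σ : Perm α)
    (u v : α → ι) : T F σ u v = (((if v = u ∘ σ then 1 else 0 : ℤ)) : F) := by
  unfold T
  split_ifs <;> simp

theorem finrank_S_transfer (F : Type) [Field F] [CharZero F] (n : ℕ) :
    Module.finrank ℝ (S ℝ ι (Fin n)) ≤ Module.finrank F (S F ι (Fin n)) := by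
  classical
  -- uncurried vectors
  let w : (K : Type) → [Field K] → Perm (Fin n) → ((Fin n → ι) × (Fin n → ι)) → K :=
    fun K _ σ q => T K σ q.1 q.2
  obtain ⟨κ, a, ha, hsp, hli⟩ := exists_linearIndependent' ℝ
    (fun σ : Perm (Fin n) => (T ℝ σ : V ℝ ι (Fin n)))
  have : Fintype κ := Fintype.ofInjective a ha
  have h1 : Module.finrank ℝ (S ℝ ι (Fin n)) = Fintype.card κ := by
    unfold S
    have h2 := finrank_span_eq_card hli
    rw [hsp] at h2
    exact h2
  have hli2 : LinearIndependent F (fun i => (T F (a i) : V F ι (Fin n))) := by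
    have e1 : LinearIndependent ℝ (fun i => (fun q : (Fin n → ι) × (Fin n → ι) =>
        (((if q.2 = q.1 ∘ (a i) then 1 else 0 : ℤ)) : ℝ))) := by
      rw [Fintype.linearIndependent_iff] at hli ⊢
      intro g hg
      apply hli g
      funext u v
      have := congrFun hg (u, v)
      rw [Finset.sum_apply] at this
      rw [Finset.sum_apply, Finset.sum_apply]
      refine Eq.trans ?_ this
      refine Finset.sum_congr rfl fun i _ => ?_
      show g i * T ℝ (a i) u v = g i * _
      rw [T_int]
    have e2 := li_transfer (F := F) _ e1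
    rw [Fintype.linearIndependent_iff] at e2 ⊢
    intro g hg
    apply e2 g
    funext q
    have := congrFun (congrFun hg q.1) q.2
    rw [Finset.sum_apply, Finset.sum_apply] at this
    rw [Finset.sum_apply]
    refine Eq.trans ?_ this
    refine Finset.sum_congr rfl fun i _ => ?_
    show g i * _ = g i * T F (a i) q.1 q.2
    rw [T_int]
  rw [h1, ← finrank_span_eq_card hli2]
  apply Submodule.finrank_mono
  unfold S
  apply Submodule.span_mono
  rintro _ ⟨i, rfl⟩
  exact ⟨a i, rfl⟩

/-- the number of words fixed by a permutation -/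
def chi (κ : Type) [Fintype κ] [DecidableEq κ] {n : ℕ} (π : Perm (Fin n)) : ℕ :=
  (Finset.univ.filter (fun u : Fin n → κ => u ∘ π = u)).card

theorem chi_sq {n : ℕ} (π : Perm (Fin n)) : chi ι π ^ 2 = chi (ι × ι) π := by
  unfold chi
  rw [pow_two, ← Finset.card_product]
  refine Finset.card_bij' (fun p _ => fun i => (p.1 i, p.2 i))
    (fun w _ => (fun i => (w i).1, fun i => (w i).2)) ?_ ?_ ?_ ?_
  · rintro ⟨u, v⟩ h
    simp only [Finset.mem_product, Finset.mem_filter, Finset.mem_univ, true_and] at h ⊢
    funext i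
    simp only [Function.comp]
    rw [Prod.mk.injEq]
    exact ⟨congrFun h.1 i, congrFun h.2 i⟩
  · intro w h
    simp only [Finset.mem_product, Finset.mem_filter, Finset.mem_univ, true_and] at h ⊢
    constructor
    · funext i
      exact congrArg Prod.fst (congrFun h i)
    · funext i
      exact congrArg Prod.snd (congrFun h i)
  · rintro ⟨u, v⟩ _
    rfl
  · intro w _
    rfl

attribute [local instance] arrowAction

/-- the counting bound for orbits -/
theorem card_orbits (κ : Type) [Fintype κ] [DecidableEq κ] (n : ℕ)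
    [Fintype (MulAction.orbitRel.Quotient (Perm (Fin n)) (Fin n → κ))] :
    Fintype.card (MulAction.orbitRel.Quotient (Perm (Fin n)) (Fin n → κ)) ≤
      (n + 1) ^ Fintype.card κ := by
  classical
  let cnt : (Fin n → κ) → κ → Fin (n + 1) := fun w y =>
    ⟨Fintype.card {i // w i = y}, by
      have := Fintype.card_subtype_le (fun i => w i = y)
      rw [Fintype.card_fin] at this
      omega⟩
  let f : MulAction.orbitRel.Quotient (Perm (Fin n)) (Fin n → κ) → κ → Fin (n + 1) :=
    fun ω => cnt (Quotient.out ω)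
  have hf : Function.Injective f := by
    intro ω ω' h
    rw [← Quotient.out_eq ω, ← Quotient.out_eq ω']
    apply Quotient.sound
    show _ ∈ MulAction.orbit _ _
    set w := Quotient.out ω
    set w' := Quotient.out ω'
    have hc : ∀ y, Fintype.card {i // w i = y} = Fintype.card {i // w' i = y} := by
      intro y
      have := congrFun h y
      exact congrArg Fin.val this
    let e : Perm (Fin n) := (Equiv.sigmaFiberEquiv w').symm.trans
      ((Equiv.sigmaCongrRight (fun y => Fintype.equivOfCardEq (hc y).symm)).trans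
        (Equiv.sigmaFiberEquiv w))
    have he : ∀ i, w (e i) = w' i := by
      intro i
      exact (Fintype.equivOfCardEq (hc (w' i)).symm ⟨i, rfl⟩).2
    refine ⟨e, ?_⟩
    funext i
    show w' (e⁻¹ • i) = w i
    have := he (e.symm i)
    rw [apply_symm_apply] at this
    exact this.symm
  have := Fintype.card_le_of_injective f hf
  rwa [Fintype.card_fun, Fintype.card_fin] at this

theorem sum_chi_sq (n : ℕ) : ∑ π : Perm (Fin n), chi ι π ^ 2 ≤
    (n + 1) ^ (Fintype.card ι * Fintype.card ι) * n.factorial := by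
  classical
  have hB := MulAction.sum_card_fixedBy_eq_card_orbits_mul_card_group (Perm (Fin n))
    (Fin n → ι × ι)
  have h1 : ∀ π : Perm (Fin n), Fintype.card (MulAction.fixedBy (Fin n → ι × ι) π) =
      chi (ι × ι) π := by
    intro π
    unfold chi
    rw [Fintype.card_subtype]
    congr 1
    ext w
    simp only [Finset.mem_filter, Finset.mem_univ, true_and, MulAction.mem_fixedBy]
    constructor
    · intro h
      funext i
      have := congrFun h (π i)
      have e1 : (π • w) (π i) = w (π⁻¹ • (π i)) := rfl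
      rw [e1, ← Equiv.Perm.smul_def, inv_smul_smul] at this
      exact this.symm
    · intro h
      funext i
      have e1 : (π • w) i = w (π⁻¹ • i) := rfl
      rw [e1]
      have := congrFun h (π.symm i)
      simp only [Function.comp, apply_symm_apply] at this
      exact this.symm
  simp only [chi_sq]
  rw [← Finset.sum_congr rfl (fun π _ => h1 π), hB, Fintype.card_perm, Fintype.card_fin]
  apply Nat.mul_le_mul_right
  have := card_orbits (ι × ι) n
  rwa [Fintype.card_prod] at this

/-- the vector of a permutation in the Euclidean space -/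
noncomputable def tv (n : ℕ) : V ℝ ι (Fin n) →ₗ[ℝ] EuclideanSpace ℝ ((Fin n → ι) × (Fin n → ι)) where
  toFun f := WithLp.toLp 2 (fun q => f q.1 q.2)
  map_add' _ _ := rfl
  map_smul' _ _ := rfl

theorem inner_tv (n : ℕ) (σ τ : Perm (Fin n)) :
    inner ℝ (tv (ι := ι) n (T ℝ σ)) (tv n (T ℝ τ)) = (chi ι (σ * τ⁻¹) : ℝ) := by
  rw [PiLp.inner_apply, Fintype.sum_prod_type]
  have h1 : ∀ u : Fin n → ι, ∑ v : Fin n → ι,
      inner ℝ ((tv n (T ℝ σ)).ofLp (u, v)) ((tv n (T ℝ τ)).ofLp (u, v)) =
      if u ∘ (σ * τ⁻¹) = u then (1 : ℝ) else 0 := by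
    intro u
    have h2 : ∀ v : Fin n → ι,
        inner ℝ ((tv n (T ℝ σ)).ofLp (u, v)) ((tv n (T ℝ τ)).ofLp (u, v)) =
        if v = u ∘ σ then (if u ∘ σ = u ∘ τ then (1 : ℝ) else 0) else 0 := by
      intro v
      show inner ℝ (T ℝ σ u v) (T ℝ τ u v) = _
      unfold T
      by_cases h : v = u ∘ σ
      · subst h; simp
      · simp [h]
    simp only [h2]
    rw [Finset.sum_ite_eq' Finset.univ (u ∘ σ)]
    simp only [Finset.mem_univ, if_true]
    congr 1
    apply propext
    constructor
    · intro h
      funext i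
      have := congrFun h (τ⁻¹ i)
      simpa using this
    · intro h
      funext i
      have := congrFun h (τ i)
      simpa using this
  rw [Finset.sum_congr rfl (fun u _ => h1 u)]
  unfold chi
  rw [Finset.sum_ite, Finset.sum_const_zero, add_zero, Finset.sum_const]
  simp

/-- **The lower bound** -/
theorem lower (F : Type) [Field F] [CharZero F] (n : ℕ) :
    Fintype.card ι ^ (2 * n) ≤
      Module.finrank F (S F ι (Fin n)) * (n + 1) ^ (Fintype.card ι * Fintype.card ι) := by
  classical
  have hw := welch (fun σ : Perm (Fin n) => tv (ι := ι) n (T ℝ σ))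
  simp only [inner_tv] at hw
  have hspan : Submodule.span ℝ (Set.range fun σ : Perm (Fin n) => tv (ι := ι) n (T ℝ σ)) =
      (S ℝ ι (Fin n)).map (tv n) := by
    unfold S
    rw [Submodule.map_span, ← Set.range_comp]
    rfl
  rw [hspan] at hw
  have hr1 : Module.finrank ℝ ((S ℝ ι (Fin n)).map (tv n)) ≤
      Module.finrank F (S F ι (Fin n)) :=
    (Submodule.finrank_map_le _ _).trans (finrank_S_transfer F n)
  have h1 : ∀ σ : Perm (Fin n), chi ι (σ * σ⁻¹) = Fintype.card ι ^ n := by
    intro σ
    unfold chi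
    rw [mul_inv_cancel]
    simp
  have h2 : ∑ i : Perm (Fin n), ∑ j : Perm (Fin n), (chi ι (i * j⁻¹) : ℝ) ^ 2 =
      (n.factorial : ℝ) * ∑ π : Perm (Fin n), (chi ι π : ℝ) ^ 2 := by
    rw [Finset.sum_comm]
    have : ∀ j : Perm (Fin n), ∑ i : Perm (Fin n), (chi ι (i * j⁻¹) : ℝ) ^ 2 =
        ∑ π : Perm (Fin n), (chi ι π : ℝ) ^ 2 := by
      intro j
      exact Fintype.sum_equiv (Equiv.mulRight j⁻¹) _ _ (fun i => rfl)
    rw [Finset.sum_congr rfl (fun j _ => this j), Finset.sum_const, Finset.card_univ,
      Fintype.card_perm, Fintype.card_fin, nsmul_eq_mul]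
  rw [h2, Finset.sum_congr rfl (fun σ _ => by rw [h1 σ]), Finset.sum_const, Finset.card_univ,
    Fintype.card_perm, Fintype.card_fin, nsmul_eq_mul] at hw
  have h3 : (∑ π : Perm (Fin n), (chi ι π : ℝ) ^ 2) ≤
      ((n + 1) ^ (Fintype.card ι * Fintype.card ι) * n.factorial : ℕ) := by
    have := sum_chi_sq (ι := ι) n
    exact_mod_cast this
  have hf : (0 : ℝ) < n.factorial := by exact_mod_cast n.factorial_pos
  have h4 : ((n.factorial : ℝ) * ((Fintype.card ι ^ n : ℕ) : ℝ)) ^ 2 ≤
      (Module.finrank F (S F ι (Fin n)) : ℝ) * ((n.factorial : ℝ) *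
        ((n + 1) ^ (Fintype.card ι * Fintype.card ι) * n.factorial : ℕ)) := by
    refine hw.trans ?_
    apply mul_le_mul
    · exact_mod_cast hr1
    · exact mul_le_mul_of_nonneg_left h3 hf.le
    · positivity
    · positivity
  have h5 : ((Fintype.card ι : ℝ) ^ (2 * n)) ≤
      (Module.finrank F (S F ι (Fin n)) : ℝ) *
        ((n : ℝ) + 1) ^ (Fintype.card ι * Fintype.card ι) := by
    have h6 : (0 : ℝ) < (n.factorial : ℝ) ^ 2 := by positivity
    refine le_of_mul_le_mul_left ?_ h6
    calc (n.factorial : ℝ) ^ 2 * (Fintype.card ι : ℝ) ^ (2 * n)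
        = ((n.factorial : ℝ) * ((Fintype.card ι ^ n : ℕ) : ℝ)) ^ 2 := by
          push_cast
          ring
      _ ≤ _ := h4
      _ = _ := by push_cast; ring
  exact_mod_cast h5

end

end Pool.Agent.K1H10.MC
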