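import Mathlib

/-!
# The analytic part: concentration and ratio limits
-/

set_option autoImplicit false

namespace Pool.Agent.K1H10.MC

open Filter Topology

theorem sum_pow_card (N : ℕ) (x : ℝ) : ∑ J : Finset (Fin N), x ^ J.card = (1 + x) ^ N := by
  have := Fintype.sum_pow_mul_eq_add_pow (Fin N) x 1
  rw [Fintype.card_fin] at this
  rw [add_comm 1 x, ← this]
  refine Finset.sum_congr rfl fun J _ => ?_
  rw [one_pow, mul_one]

/-- Hoeffding type inequality -/
theorem mgf_le (b l : ℝ) (hb0 : 0 ≤ b) (hb1 : b ≤ 1) (hl : |l| ≤ 1) :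
    1 - b + b * Real.exp l ≤ Real.exp (l * b + l ^ 2) := by
  have h1 : Real.exp (l * (1 - b)) ≤ 1 + l * (1 - b) + (l * (1 - b)) ^ 2 := by
    have h : |l * (1 - b)| ≤ 1 := by
      rw [abs_mul]
      have : |1 - b| ≤ 1 := by rw [abs_le]; constructor <;> linarith
      calc |l| * |1 - b| ≤ 1 * 1 := mul_le_mul hl this (abs_nonneg _) zero_le_one
        _ = 1 := one_mul 1
    have := (abs_le.1 (Real.abs_exp_sub_one_sub_id_le h)).2
    linarith
  have h2 : Real.exp (-(l * b)) ≤ 1 - l * b + (l * b) ^ 2 := by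
    have h : |-(l * b)| ≤ 1 := by
      rw [abs_neg, abs_mul]
      have : |b| ≤ 1 := by rw [abs_le]; constructor <;> linarith
      calc |l| * |b| ≤ 1 * 1 := mul_le_mul hl this (abs_nonneg _) zero_le_one
        _ = 1 := one_mul 1
    have := (abs_le.1 (Real.abs_exp_sub_one_sub_id_le h)).2
    nlinarith
  have h3 : (1 - b) * Real.exp (-(l * b)) + b * Real.exp (l * (1 - b)) ≤ Real.exp (l ^ 2) := by
    calc (1 - b) * Real.exp (-(l * b)) + b * Real.exp (l * (1 - b))
        ≤ (1 - b) * (1 - l * b + (l * b) ^ 2) + b * (1 + l * (1 - b) + (l * (1 - b)) ^ 2) :=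
          add_le_add (mul_le_mul_of_nonneg_left h2 (by linarith))
            (mul_le_mul_of_nonneg_left h1 hb0)
      _ = 1 + l ^ 2 * (b * (1 - b)) := by ring
      _ ≤ 1 + l ^ 2 * 1 := by
          have : b * (1 - b) ≤ 1 := by nlinarith
          have := mul_le_mul_of_nonneg_left this (sq_nonneg l)
          linarith
      _ ≤ Real.exp (l ^ 2) := by
          have := Real.add_one_le_exp (l ^ 2)
          linarith
  have h4 : 1 - b + b * Real.exp l = Real.exp (l * b) *
      ((1 - b) * Real.exp (-(l * b)) + b * Real.exp (l * (1 - b))) := by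
    have e1 : Real.exp (l * b) * Real.exp (-(l * b)) = 1 := by
      rw [← Real.exp_add]; simp
    have e2 : Real.exp (l * b) * Real.exp (l * (1 - b)) = Real.exp l := by
      rw [← Real.exp_add]; congr 1; ring
    calc 1 - b + b * Real.exp l = (1 - b) * 1 + b * Real.exp l := by ring
      _ = (1 - b) * (Real.exp (l * b) * Real.exp (-(l * b))) +
          b * (Real.exp (l * b) * Real.exp (l * (1 - b))) := by rw [e1, e2]
      _ = _ := by ring
  rw [h4, Real.exp_add]
  exact mul_le_mul_of_nonneg_left h3 (Real.exp_pos _).le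

/-- one tail -/
theorem tail_le (N : ℕ) (q l t : ℝ) (hq : 0 ≤ q) (hl : |l| ≤ 1) (P : Finset (Fin N) → Prop)
    [DecidablePred P] (hP : ∀ J, P J → t * N ≤ l * J.card) :
    ∑ J ∈ Finset.univ.filter P, q ^ J.card ≤
      (1 + q) ^ N * Real.exp ((l * (q / (1 + q)) + l ^ 2 - t) * N) := by
  have h1 : ∀ J ∈ Finset.univ.filter P, q ^ J.card ≤
      (q * Real.exp l) ^ J.card * Real.exp (-(t * N)) := by
    intro J hJ
    have hJ' := hP J (Finset.mem_filter.1 hJ).2
    rw [mul_pow, ← Real.exp_nat_mul, mul_assoc, ← Real.exp_add]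
    have : (1 : ℝ) ≤ Real.exp (J.card * l + -(t * N)) := by
      apply Real.one_le_exp; linarith
    calc q ^ J.card = q ^ J.card * 1 := (mul_one _).symm
      _ ≤ _ := mul_le_mul_of_nonneg_left this (pow_nonneg hq _)
  have hq1 : (0 : ℝ) < 1 + q := by linarith
  calc ∑ J ∈ Finset.univ.filter P, q ^ J.card
      ≤ ∑ J ∈ Finset.univ.filter P, (q * Real.exp l) ^ J.card * Real.exp (-(t * N)) :=
        Finset.sum_le_sum h1
    _ ≤ ∑ J : Finset (Fin N), (q * Real.exp l) ^ J.card * Real.exp (-(t * N)) := by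
        apply Finset.sum_le_sum_of_subset_of_nonneg (Finset.subset_univ _)
        intro J _ _
        positivity
    _ = (1 + q * Real.exp l) ^ N * Real.exp (-(t * N)) := by
        rw [← Finset.sum_mul, sum_pow_card]
    _ = (1 + q) ^ N * (1 - q / (1 + q) + q / (1 + q) * Real.exp l) ^ N *
          Real.exp (-(t * N)) := by
        rw [← mul_pow]
        congr 2
        field_simp
        ring
    _ ≤ (1 + q) ^ N * (Real.exp (l * (q / (1 + q)) + l ^ 2)) ^ N * Real.exp (-(t * N)) := by
        have hb0 : 0 ≤ q / (1 + q) := by positivity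
        have hb1 : q / (1 + q) ≤ 1 := by rw [div_le_one hq1]; linarith
        have h2 := mgf_le (q / (1 + q)) l hb0 hb1 hl
        have h3 : 0 ≤ 1 - q / (1 + q) + q / (1 + q) * Real.exp l := by
          have := Real.exp_pos l
          have : 0 ≤ q / (1 + q) * Real.exp l := by positivity
          linarith
        gcongr
    _ = _ := by
        rw [mul_assoc, ← Real.exp_nat_mul, ← Real.exp_add]
        congr 2
        ring

/-- **The ratio limit.** -/
theorem ratio_limit (s : ℕ → ℝ) (q : ℝ) (hq : 0 < q) (D : ℕ)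
    (d : (n : ℕ) → Finset (Fin n) → ℝ) (hd0 : ∀ n J, 0 ≤ d n J) (hd1 : ∀ n J, d n J ≤ q ^ J.card)
    (hs : ∀ n, s n = ∑ J, d n J)
    (hrec : ∀ n : ℕ, ((n : ℝ) + 1) * s n = ∑ J, ((n : ℝ) + 1 - J.card) * d (n + 1) J)
    (hlow : ∀ n : ℕ, (1 + q) ^ n ≤ s n * ((n : ℝ) + 1) ^ D) :
    Tendsto (fun n => s n / s (n + 1)) atTop (𝓝 (1 / (1 + q))) := by
  have hq1 : (0 : ℝ) < 1 + q := by linarith
  have hspos : ∀ n, 0 < s n := by
    intro n
    have h1 := hlow n
    have h2 : (0 : ℝ) < (1 + q) ^ n := by positivity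
    have h3 : (0 : ℝ) < ((n : ℝ) + 1) ^ D := by positivity
    by_contra hcon
    push Not at hcon
    have := mul_nonpos_of_nonpos_of_nonneg hcon h3.le
    linarith
  set b := q / (1 + q) with hb
  have hbq : 1 / (1 + q) = 1 - b := by rw [hb]; field_simp; ring
  have hb0 : 0 ≤ b := by positivity
  have hb1 : b ≤ 1 := by rw [hb, div_le_one hq1]; linarith
  -- the main estimate
  have main : ∀ (e : ℝ), 0 < e → e ≤ 1 → ∀ n : ℕ, |s n / s (n + 1) - (1 - b)| ≤
      e + 2 * (((n + 1 : ℕ) : ℝ) + 1) ^ D * Real.exp (-(e ^ 2 / 4)) ^ (n + 1) := by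
    intro e he he1 n
    set N := n + 1 with hN
    have hNpos : (0 : ℝ) < (N : ℝ) := by rw [hN]; positivity
    have hNc : (N : ℝ) = (n : ℝ) + 1 := by rw [hN]; push_cast; ring
    have hsN := hspos N
    have e1 : s n / s N - (1 - b) = (∑ J, (b - J.card / N) * d N J) / s N := by
      have h1 := hrec n
      rw [← hNc] at h1
      have h2 : s n = (∑ J, ((N : ℝ) - J.card) * d N J) / N := by
        rw [← h1]; field_simp
      have h3 : (∑ J, (b - J.card / N) * d N J) =
          (∑ J, ((N : ℝ) - J.card) * d N J) / N - (1 - b) * s N := by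
        rw [hs N, Finset.mul_sum, Finset.sum_div, ← Finset.sum_sub_distrib]
        refine Finset.sum_congr rfl fun J _ => ?_
        field_simp
        ring
      rw [h3, ← h2, sub_div, mul_div_assoc, div_self hsN.ne', mul_one]
    rw [e1, abs_div, abs_of_pos hsN, div_le_iff₀ hsN]
    -- tails
    have hcard : ∀ J : Finset (Fin N), (J.card : ℝ) / N ≤ 1 := by
      intro J
      rw [div_le_one hNpos]
      have := Finset.card_le_univ J
      rw [Fintype.card_fin] at this
      exact_mod_cast this
    have hcard0 : ∀ J : Finset (Fin N), 0 ≤ (J.card : ℝ) / N := fun J => by positivity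
    have hbound : ∀ J : Finset (Fin N), |(b - J.card / N) * d N J| ≤
        e * d N J + (if b + e < J.card / N then q ^ J.card else 0) +
        (if (J.card : ℝ) / N < b - e then q ^ J.card else 0) := by
      intro J
      rw [abs_mul, abs_of_nonneg (hd0 N J)]
      have h0 := hd0 N J
      have h1 := hd1 N J
      have h2 := hcard J
      have h3 := hcard0 J
      have h4 : |b - J.card / N| ≤ 1 := by rw [abs_le]; constructor <;> linarith
      have hqJ : 0 ≤ q ^ J.card := by positivity
      by_cases hA : b + e < J.card / N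
      · rw [if_pos hA, if_neg (by linarith)]
        have : |b - J.card / N| * d N J ≤ 1 * q ^ J.card :=
          mul_le_mul h4 h1 h0 zero_le_one
        have : 0 ≤ e * d N J := by positivity
        linarith
      · rw [if_neg hA]
        by_cases hB : (J.card : ℝ) / N < b - e
        · rw [if_pos hB]
          have : |b - J.card / N| * d N J ≤ 1 * q ^ J.card :=
            mul_le_mul h4 h1 h0 zero_le_one
          have : 0 ≤ e * d N J := by positivity
          linarith
        · rw [if_neg hB]
          have : |b - J.card / N| ≤ e := by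
            rw [abs_le]; constructor <;> linarith
          have := mul_le_mul_of_nonneg_right this h0
          linarith
    have hl : |e / 2| ≤ 1 := by rw [abs_of_pos (by positivity)]; linarith
    have hl' : |-(e / 2)| ≤ 1 := by rw [abs_neg]; exact hl
    have ht1 : ∑ J : Finset (Fin N), (if b + e < J.card / N then q ^ J.card else 0) ≤
        (1 + q) ^ N * Real.exp (-(e ^ 2 / 4)) ^ N := by
      rw [← Finset.sum_filter]
      refine (tail_le N q (e / 2) (e / 2 * (b + e)) hq.le hl _ ?_).trans (le_of_eq ?_)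
      · intro J hJ
        rw [lt_div_iff₀ hNpos] at hJ
        have := mul_le_mul_of_nonneg_left hJ.le (show 0 ≤ e / 2 by positivity)
        linarith
      · rw [← hb, ← Real.exp_nat_mul]
        congr 2
        ring
    have ht2 : ∑ J : Finset (Fin N), (if (J.card : ℝ) / N < b - e then q ^ J.card else 0) ≤
        (1 + q) ^ N * Real.exp (-(e ^ 2 / 4)) ^ N := by
      rw [← Finset.sum_filter]
      refine (tail_le N q (-(e / 2)) (-(e / 2) * (b - e)) hq.le hl' _ ?_).trans (le_of_eq ?_)
      · intro J hJ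
        rw [div_lt_iff₀ hNpos] at hJ
        have := mul_le_mul_of_nonneg_left hJ.le (show 0 ≤ e / 2 by positivity)
        linarith
      · rw [← hb, ← Real.exp_nat_mul]
        congr 2
        ring
    calc |∑ J, (b - J.card / N) * d N J|
        ≤ ∑ J, |(b - J.card / N) * d N J| := Finset.abs_sum_le_sum_abs _ _
      _ ≤ ∑ J : Finset (Fin N), (e * d N J + (if b + e < J.card / N then q ^ J.card else 0) +
        (if (J.card : ℝ) / N < b - e then q ^ J.card else 0)) :=
          Finset.sum_le_sum fun J _ => hbound J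
      _ = e * s N + ∑ J : Finset (Fin N), (if b + e < J.card / N then q ^ J.card else 0) +
          ∑ J : Finset (Fin N), (if (J.card : ℝ) / N < b - e then q ^ J.card else 0) := by
          rw [Finset.sum_add_distrib, Finset.sum_add_distrib, ← Finset.mul_sum, ← hs N]
      _ ≤ e * s N + (1 + q) ^ N * Real.exp (-(e ^ 2 / 4)) ^ N +
          (1 + q) ^ N * Real.exp (-(e ^ 2 / 4)) ^ N := by linarith
      _ ≤ e * s N + (s N * ((N : ℝ) + 1) ^ D) * Real.exp (-(e ^ 2 / 4)) ^ N +
          (s N * ((N : ℝ) + 1) ^ D) * Real.exp (-(e ^ 2 / 4)) ^ N := by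
          have h1 := hlow N
          gcongr
      _ = _ := by ring
  rw [hbq, Metric.tendsto_atTop]
  intro ε hε
  set e := min (ε / 2) 1 with he
  have he0 : 0 < e := lt_min (by positivity) one_pos
  have he1 : e ≤ 1 := min_le_right _ _
  have he2 : e ≤ ε / 2 := min_le_left _ _
  have hr : |Real.exp (-(e ^ 2 / 4))| < 1 := by
    rw [abs_of_pos (Real.exp_pos _), Real.exp_lt_one_iff]
    have : 0 < e ^ 2 := by positivity
    linarith
  set r := Real.exp (-(e ^ 2 / 4)) with hrdef
  have hr0 : 0 < r := Real.exp_pos _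
  have hlim : Tendsto (fun n : ℕ => 2 * (((n + 1 : ℕ) : ℝ) + 1) ^ D * r ^ (n + 1)) atTop (𝓝 0) := by
    have h1 := tendsto_pow_const_mul_const_pow_of_abs_lt_one D hr
    have h2 := (tendsto_add_atTop_iff_nat 2).2 h1
    have h3 := h2.const_mul (2 / r)
    rw [mul_zero] at h3
    refine h3.congr fun n => ?_
    push_cast
    rw [pow_succ r (n + 1)]
    field_simp
    ring_nf
  rw [Metric.tendsto_atTop] at hlim
  obtain ⟨N0, hN0⟩ := hlim (ε / 2) (by positivity)
  refine ⟨N0, fun n hn => ?_⟩
  have h1 := main e he0 he1 n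
  have h2 := hN0 n hn
  rw [Real.dist_eq, sub_zero] at h2
  have h3 := le_abs_self (2 * (((n + 1 : ℕ) : ℝ) + 1) ^ D * r ^ (n + 1))
  rw [Real.dist_eq]
  linarith

end Pool.Agent.K1H10.MC
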