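import Pool.Agent.K1H10.MC.Split
import Pool.Agent.K1H10.MC.Lower
import Pool.Agent.K1H10.MC.Ratio

/-!
# Multilinear polynomials and trace functions
-/

set_option autoImplicit false
set_option linter.unusedSectionVars false

namespace Pool.Agent.K1H10.MC

open Equiv

section

variable {F : Type} [Field F] {ι : Type} [DecidableEq ι] [Fintype ι]

/-- a multilinear monomial as a function on matrices -/
def mon (F : Type) [Field F] (ι : Type) [DecidableEq ι] [Fintype ι] {n : ℕ} (ψ : Perm (Fin n)) :
    (Fin n → Matrix ι ι F) → Matrix ι ι F := fun x => (List.ofFn (fun i => x (ψ i))).prod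

/-- evaluation at matrix units -/
def Ev (F : Type) [Field F] (ι : Type) [DecidableEq ι] (n : ℕ) :
    ((Fin n → Matrix ι ι F) → Matrix ι ι F) →ₗ[F] V F ι (Fin (n + 1)) where
  toFun f := fun u v => f (fun i => Matrix.single (u i.succ) (v i.succ) 1) (v 0) (u 0)
  map_add' _ _ := rfl
  map_smul' _ _ := rfl

theorem prod_single (n : ℕ) : ∀ (a b : Fin n → ι) (p q : ι),
    (List.ofFn (fun i => Matrix.single (a i) (b i) (1 : F))).prod p q =
      if (Fin.cons p b : Fin (n + 1) → ι) = Fin.snoc a q then 1 else 0 := by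
  induction n with
  | zero =>
    intro a b p q
    rw [List.ofFn_zero, List.prod_nil, Matrix.one_apply]
    congr 1
    apply propext
    constructor
    · intro h
      subst h
      funext i
      have : i = 0 := by
        apply Fin.ext
        have := i.2
        show (i : ℕ) = 0
        omega
      subst this
      rfl
    · intro h
      have := congrFun h 0
      exact this
  | succ n ih =>
    intro a b p q
    rw [List.ofFn_succ, List.prod_cons, Matrix.mul_apply]
    rw [Finset.sum_eq_single (b 0)]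
    · rw [ih (fun i => a i.succ) (fun i => b i.succ), Matrix.single_apply]
      have e1 : (Fin.cons (b 0) (fun i : Fin n => b i.succ) : Fin (n + 1) → ι) = b :=
        Fin.cons_self_tail b
      have e2 : (Fin.snoc a q : Fin (n + 2) → ι) =
          Fin.cons (a 0) (Fin.snoc (fun i : Fin n => a i.succ) q : Fin (n + 1) → ι) := by
        rw [Fin.cons_snoc_eq_snoc_cons]
        congr 1
        exact (Fin.cons_self_tail a).symm
      rw [e1, e2]
      by_cases h1 : a 0 = p
      · subst h1
        by_cases h2 : b = Fin.snoc (fun i : Fin n => a i.succ) q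
        · rw [if_pos ⟨rfl, rfl⟩, if_pos h2, if_pos, one_mul]
          rw [← h2]
        · rw [if_neg h2, mul_zero, if_neg]
          intro h
          exact h2 ((Fin.cons_right_injective (α := fun _ => ι) (a 0)) h)
      · rw [if_neg (fun h => h1 h.1), zero_mul, if_neg]
        intro h
        have := congrFun h 0
        exact h1 this.symm
    · intro j _ hj
      rw [Matrix.single_apply, if_neg (fun h => hj h.2.symm), zero_mul]
    · intro h; exact absurd (Finset.mem_univ _) h

/-- the cycle of a monomial -/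
def cyc {n : ℕ} (ψ : Perm (Fin n)) : Perm (Fin (n + 1)) :=
  hat ψ * finRotate (n + 1) * (hat ψ)⁻¹

theorem Ev_mon {n : ℕ} (ψ : Perm (Fin n)) : Ev F ι n (mon F ι ψ) = T F (cyc ψ) := by
  funext u v
  show (List.ofFn (fun i => Matrix.single (u (ψ i).succ) (v (ψ i).succ) (1 : F))).prod
    (v 0) (u 0) = _
  rw [prod_single n (fun i => u (ψ i).succ) (fun i => v (ψ i).succ)]
  unfold T
  congr 1
  have e1 : (Fin.cons (v 0) (fun i => v (ψ i).succ) : Fin (n + 1) → ι) = v ∘ hat ψ := by
    funext i
    refine Fin.cases ?_ (fun j => ?_) i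
    · rw [Fin.cons_zero, Function.comp, hat_zero]
    · rw [Fin.cons_succ, Function.comp, hat_succ]
  have e2 : (Fin.snoc (fun i => u (ψ i).succ) (u 0) : Fin (n + 1) → ι) =
      u ∘ hat ψ ∘ finRotate (n + 1) := by
    funext i
    refine Fin.lastCases ?_ (fun j => ?_) i
    · rw [Fin.snoc_last, Function.comp, Function.comp, finRotate_last, hat_zero]
    · rw [Fin.snoc_castSucc, Function.comp, Function.comp]
      have : finRotate (n + 1) j.castSucc = j.succ := by
        have := finRotate_of_lt j.2
        exact this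
      rw [this, hat_succ]
  rw [e1, e2]
  apply propext
  constructor
  · intro h
    funext x
    have := congrFun h ((hat ψ).symm x)
    simp only [Function.comp, apply_symm_apply] at this
    exact this
  · intro h
    funext x
    have := congrFun h (hat ψ x)
    rw [Function.comp, this]
    show u (hat ψ (finRotate (n + 1) ((hat ψ).symm (hat ψ x)))) = _
    rw [symm_apply_apply]
    rfl

theorem exists_cyc {n : ℕ} (γ : Perm (Fin (n + 1))) (h : Tr γ) : ∃ ψ, γ = cyc ψ := by
  have hc : γ.IsCycleOn ((Finset.univ : Finset (Fin (n + 1))) : Set (Fin (n + 1))) := by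
    refine ⟨?_, fun x _ y _ => h x y⟩
    rw [Finset.coe_univ]
    exact Set.bijOn_univ.2 γ.bijective
  let f : Fin (n + 1) → Fin (n + 1) := fun i => (γ ^ (i : ℕ)) 0
  have hsurj : Function.Surjective f := by
    intro b
    obtain ⟨m, hm, hb⟩ := hc.exists_pow_eq (Finset.mem_univ 0) (Finset.mem_univ b)
    rw [Finset.card_univ, Fintype.card_fin] at hm
    exact ⟨⟨m, hm⟩, hb⟩
  have hbij : Function.Bijective f := Finite.surjective_iff_bijective.1 hsurj
  let e : Perm (Fin (n + 1)) := Equiv.ofBijective f hbij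
  have he : ∀ i, e i = (γ ^ (i : ℕ)) 0 := fun _ => rfl
  have he0 : e 0 = 0 := by rw [he]; simp
  obtain ⟨ψ, hψ⟩ := exists_hat e he0
  refine ⟨ψ, ?_⟩
  unfold cyc
  rw [← hψ, eq_mul_inv_iff_mul_eq]
  ext1 i
  rw [Equiv.Perm.mul_apply, Equiv.Perm.mul_apply]
  refine Fin.lastCases ?_ (fun j => ?_) i
  · rw [finRotate_last, he0, he]
    have := hc.pow_card_apply (Finset.mem_univ 0)
    rw [Finset.card_univ, Fintype.card_fin, pow_succ', Equiv.Perm.mul_apply] at this
    exact this
  · have e1 : finRotate (n + 1) j.castSucc = j.succ := finRotate_of_lt j.2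
    rw [e1, he, he, Fin.val_succ, Fin.val_castSucc, pow_succ', Equiv.Perm.mul_apply]

theorem cyc_tr {n : ℕ} (hn : 1 ≤ n) (ψ : Perm (Fin n)) : Tr (cyc ψ) := by
  intro a b
  unfold cyc
  obtain ⟨m, rfl⟩ : ∃ m, n = m + 1 := ⟨n - 1, by omega⟩
  have h1 : (finRotate (m + 1 + 1)).SameCycle ((hat ψ)⁻¹ a) ((hat ψ)⁻¹ b) := by
    have h : ∀ x : Fin (m + 2), finRotate (m + 2) x ≠ x := by
      intro x
      have : x ∈ (finRotate (m + 2)).support := by
        rw [support_finRotate]; exact Finset.mem_univ _
      exact Equiv.Perm.mem_support.1 this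
    exact isCycle_finRotate.sameCycle (h _) (h _)
  rw [Equiv.Perm.sameCycle_conj]
  exact h1

theorem cyc_tr' {n : ℕ} (ψ : Perm (Fin n)) : Tr (cyc ψ) := by
  rcases Nat.eq_zero_or_pos n with rfl | h
  · intro a b
    have : a = b := by
      apply Fin.ext
      have := a.2
      have := b.2
      omega
    subst this
    exact Equiv.Perm.SameCycle.refl _ _
  · exact cyc_tr h ψ

/-- the multilinear polynomial functions -/
def PP' (F : Type) [Field F] (ι : Type) [DecidableEq ι] [Fintype ι] (n : ℕ) :
    Submodule F ((Fin n → Matrix ι ι F) → Matrix ι ι F) :=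
  Submodule.span F (Set.range (mon F ι))

theorem map_Ev (n : ℕ) : (PP' F ι n).map (Ev F ι n) = Q F ι (Fin (n + 1)) := by
  unfold PP' Q
  rw [Submodule.map_span]
  congr 1
  ext f
  constructor
  · rintro ⟨_, ⟨ψ, rfl⟩, rfl⟩
    exact ⟨cyc ψ, cyc_tr' ψ, Ev_mon ψ⟩
  · rintro ⟨γ, h, rfl⟩
    obtain ⟨ψ, rfl⟩ := exists_cyc γ h
    exact ⟨mon F ι ψ, ⟨ψ, rfl⟩, Ev_mon ψ⟩

theorem exists_multilinear {n : ℕ} (f : (Fin n → Matrix ι ι F) → Matrix ι ι F)
    (hf : f ∈ PP' F ι n) :
    ∃ g : MultilinearMap F (fun _ : Fin n => Matrix ι ι F) (Matrix ι ι F), f = g := by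
  unfold PP' at hf
  induction hf using Submodule.span_induction with
  | mem x h =>
    obtain ⟨ψ, rfl⟩ := h
    refine ⟨(MultilinearMap.mkPiAlgebraFin F n (Matrix ι ι F)).domDomCongr ψ, ?_⟩
    funext x
    rfl
  | zero => exact ⟨0, rfl⟩
  | add x y _ _ hx hy =>
    obtain ⟨g, rfl⟩ := hx
    obtain ⟨g', rfl⟩ := hy
    exact ⟨g + g', rfl⟩
  | smul a x _ hx =>
    obtain ⟨g, rfl⟩ := hx
    exact ⟨a • g, rfl⟩

/-- a multilinear map whose values at matrix units are in a submodule -/
theorem multilinear_mem {n : ℕ}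
    (g : MultilinearMap F (fun _ : Fin n => Matrix ι ι F) (Matrix ι ι F))
    (C : Submodule F (Matrix ι ι F))
    (h : ∀ u v : Fin n → ι, g (fun i => Matrix.single (u i) (v i) 1) ∈ C) (x) : g x ∈ C := by
  have h1 : C.mkQ.compMultilinearMap g = 0 := by
    refine Module.Basis.ext_multilinear (fun _ => Matrix.stdBasis F ι ι) ?_
    intro w
    rw [LinearMap.compMultilinearMap_apply, zero_apply, Submodule.mkQ_apply,
      Submodule.Quotient.mk_eq_zero]
    have := h (fun i => (w i).1) (fun i => (w i).2)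
    have e : (fun i => (Matrix.stdBasis F ι ι) (w i)) =
        fun i => Matrix.single (w i).1 (w i).2 (1 : F) := by
      funext i
      exact Matrix.stdBasis_eq_single F (w i).1 (w i).2
    rw [e]
    exact this
  have h2 := congrArg (fun m => m x) h1
  simp only [LinearMap.compMultilinearMap_apply, zero_apply, Submodule.mkQ_apply,
      Submodule.Quotient.mk_eq_zero] at h2
  exact h2

theorem Ev_inj {n : ℕ} (f : (Fin n → Matrix ι ι F) → Matrix ι ι F) (hf : f ∈ PP' F ι n)
    (h0 : Ev F ι n f = 0) : f = 0 := by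
  obtain ⟨g, rfl⟩ := exists_multilinear f hf
  funext x
  have := multilinear_mem g ⊥ (by
    intro u v
    rw [Submodule.mem_bot]
    ext p q
    have h1 := congrFun (congrFun h0 (Fin.cons q u)) (Fin.cons p v)
    exact h1) x
  rwa [Submodule.mem_bot] at this

theorem finrank_map_Ev {n : ℕ} (A : Submodule F ((Fin n → Matrix ι ι F) → Matrix ι ι F))
    (hA : A ≤ PP' F ι n) : Module.finrank F (A.map (Ev F ι n)) = Module.finrank F A := by
  have hinj : Function.Injective ((Ev F ι n).domRestrict A) := by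
    rw [injective_iff_map_eq_zero]
    intro f hf
    apply Subtype.ext
    exact Ev_inj f.1 (hA f.2) hf
  have h1 := LinearMap.finrank_range_of_inj hinj
  rw [LinearMap.range_domRestrict] at h1
  exact h1

theorem finrank_PP (n : ℕ) : Module.finrank F (PP' F ι n) =
    Module.finrank F (Q F ι (Fin (n + 1))) := by
  rw [← map_Ev, finrank_map_Ev _ le_rfl]

/-- the quotient by the centre, on functions -/
def Lc (F : Type) [Field F] (ι : Type) [DecidableEq ι] [Fintype ι] (n : ℕ) :
    ((Fin n → Matrix ι ι F) → Matrix ι ι F) →ₗ[F] ((Fin n → Matrix ι ι F) →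
      Matrix ι ι F ⧸ Subalgebra.toSubmodule (Subalgebra.center F (Matrix ι ι F))) :=
  (Submodule.mkQ (Subalgebra.toSubmodule (Subalgebra.center F (Matrix ι ι F)))).compLeft _

theorem mem_center_iff' (A : Matrix ι ι F) :
    A ∈ Subalgebra.toSubmodule (Subalgebra.center F (Matrix ι ι F)) ↔
      ∃ t : F, ∀ p q, A p q = if p = q then t else 0 := by
  rw [Subalgebra.mem_toSubmodule, Algebra.IsCentral.center_eq_bot, Algebra.mem_bot]
  constructor
  · rintro ⟨t, rfl⟩
    exact ⟨t, fun p q => Matrix.algebraMap_matrix_apply⟩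
  · rintro ⟨t, ht⟩
    refine ⟨t, ?_⟩
    ext p q
    rw [ht, Matrix.algebraMap_matrix_apply]
    rfl

theorem map_Ev_ker [Nonempty ι] (n : ℕ) :
    (PP' F ι n ⊓ LinearMap.ker (Lc F ι n)).map (Ev F ι n) = (D F ι n).map (Jm F ι n) := by
  obtain ⟨p0⟩ := ‹Nonempty ι›
  apply le_antisymm
  · rintro _ ⟨f, ⟨hf, hk⟩, rfl⟩
    have hk' : ∀ x, f x ∈ Subalgebra.toSubmodule (Subalgebra.center F (Matrix ι ι F)) := by
      intro x
      have := congrFun (LinearMap.mem_ker.1 hk) x
      rwa [← Submodule.Quotient.mk_eq_zero]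
    have e : Ev F ι n f = Jm F ι n (fun u v => f (fun i => Matrix.single (u i) (v i) 1) p0 p0) := by
      funext u v
      rw [Jm_apply]
      show f (fun i => Matrix.single (u i.succ) (v i.succ) 1) (v 0) (u 0) = _
      obtain ⟨t, ht⟩ := (mem_center_iff' _).1
        (hk' (fun i => Matrix.single (u i.succ) (v i.succ) 1))
      rw [ht]
      by_cases h : u 0 = v 0
      · rw [if_pos h.symm, if_pos h]
        have := ht p0 p0
        rw [if_pos rfl] at this
        exact this.symm
      · rw [if_neg (fun h' => h h'.symm), if_neg h]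
    refine ⟨_, ?_, e.symm⟩
    show Jm F ι n _ ∈ Q F ι (Fin (n + 1))
    rw [← e, ← map_Ev]
    exact ⟨f, hf, rfl⟩
  · rintro _ ⟨g, hg, rfl⟩
    have hg' : Jm F ι n g ∈ Q F ι (Fin (n + 1)) := hg
    rw [← map_Ev] at hg'
    obtain ⟨f, hf, hfg⟩ := hg'
    refine ⟨f, ⟨hf, ?_⟩, hfg⟩
    rw [SetLike.mem_coe, LinearMap.mem_ker]
    obtain ⟨m, rfl⟩ := exists_multilinear f hf
    funext x
    show Submodule.Quotient.mk (m x) = 0
    rw [Submodule.Quotient.mk_eq_zero]
    apply multilinear_mem
    intro u v
    rw [mem_center_iff']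
    refine ⟨g u v, fun p q => ?_⟩
    have h1 := congrFun (congrFun hfg (Fin.cons q u)) (Fin.cons p v)
    rw [Jm_apply] at h1
    have e2 : ∀ (p : ι) (w : Fin n → ι), (Fin.cons p w : Fin (n + 1) → ι) ∘ Fin.succ = w := by
      intro p w
      funext i
      simp
    rw [e2, e2, Fin.cons_zero, Fin.cons_zero] at h1
    have h2 : m (fun i => Matrix.single (u i) (v i) 1) p q = if q = p then g u v else 0 := h1
    rw [h2]
    by_cases h : q = p
    · rw [if_pos h, if_pos h.symm]
    · rw [if_neg h, if_neg (fun h' => h h'.symm)]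

theorem finrank_central [Nonempty ι] (n : ℕ) :
    Module.finrank F ((PP' F ι n).map (Lc F ι n)) + Module.finrank F (D F ι n) =
      Module.finrank F (Q F ι (Fin (n + 1))) := by
  have hfin : FiniteDimensional F (PP' F ι n) := by
    unfold PP'
    exact FiniteDimensional.span_of_finite F (Set.finite_range _)
  have h1 := LinearMap.finrank_range_add_finrank_ker ((Lc F ι n).domRestrict (PP' F ι n))
  rw [LinearMap.range_domRestrict, finrank_PP] at h1
  have h2 : Module.finrank F (LinearMap.ker ((Lc F ι n).domRestrict (PP' F ι n))) =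
      Module.finrank F (D F ι n) := by
    have h3 : (LinearMap.ker ((Lc F ι n).domRestrict (PP' F ι n))).map (PP' F ι n).subtype =
        PP' F ι n ⊓ LinearMap.ker (Lc F ι n) := by
      ext f
      constructor
      · rintro ⟨g, hg, rfl⟩
        exact ⟨g.2, hg⟩
      · rintro ⟨h3, h4⟩
        exact ⟨⟨f, h3⟩, h4, rfl⟩
    have h4 := (Submodule.equivMapOfInjective (PP' F ι n).subtype
      (PP' F ι n).injective_subtype
      (LinearMap.ker ((Lc F ι n).domRestrict (PP' F ι n)))).finrank_eq
    rw [h4, h3, ← finrank_map_Ev _ inf_le_left, map_Ev_ker]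
    exact (Submodule.equivMapOfInjective (Jm F ι n) Jm_inj (D F ι n)).finrank_eq.symm
  rw [h2] at h1
  exact h1

theorem map_Lc (n : ℕ) : (PP' F ι n).map (Lc F ι n) =
    Submodule.span F (Set.range (fun σ : Perm (Fin n) => fun x : Fin n → Matrix ι ι F =>
      Submodule.mkQ (Subalgebra.toSubmodule (Subalgebra.center F (Matrix ι ι F)))
        (List.ofFn (fun i => x (σ i))).prod)) := by
  unfold PP'
  rw [Submodule.map_span, ← Set.range_comp]
  rfl

end

end Pool.Agent.K1H10.MC
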