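import Pool.Agent.K1H10.MC.Basic

/-!
# The central function and the key lemma
-/

set_option autoImplicit false
set_option linter.unusedSectionVars false

namespace Pool.Agent.K1H10.MC

open Equiv

/-- the variables of the central function: `x_0, …, x_{N-1}` and `y_0, …, y_{N-1}` -/
abbrev B (N : ℕ) : Type := Fin N ⊕ Fin N

/-- the cycle `y_0, x_{τ 0}, y_1, x_{τ 1}, …` -/
def gam {N : ℕ} (τ : Perm (Fin N)) : Perm (B N) where
  toFun := Sum.elim (fun i => Sum.inr (finRotate N (τ.symm i))) (fun j => Sum.inl (τ j))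
  invFun := Sum.elim (fun i => Sum.inr (τ.symm i)) (fun j => Sum.inl (τ ((finRotate N).symm j)))
  left_inv x := by
    rcases x with i | j <;>
    simp only [Sum.elim_inl, Sum.elim_inr, symm_apply_apply, apply_symm_apply]
  right_inv x := by
    rcases x with i | j <;>
    simp only [Sum.elim_inl, Sum.elim_inr, symm_apply_apply, apply_symm_apply]

@[simp] theorem gam_inl {N : ℕ} (τ : Perm (Fin N)) (i : Fin N) :
    gam τ (Sum.inl i) = Sum.inr (finRotate N (τ.symm i)) := rfl

@[simp] theorem gam_inr {N : ℕ} (τ : Perm (Fin N)) (j : Fin N) :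
    gam τ (Sum.inr j) = Sum.inl (τ j) := rfl

theorem rot_sameCycle {N : ℕ} (hN : 2 ≤ N) (a b : Fin N) : (finRotate N).SameCycle a b := by
  obtain ⟨n, rfl⟩ : ∃ n, N = n + 2 := ⟨N - 2, by omega⟩
  have h : ∀ x : Fin (n + 2), finRotate (n + 2) x ≠ x := by
    intro x
    have : x ∈ (finRotate (n + 2)).support := by
      rw [support_finRotate]; exact Finset.mem_univ _
    exact Equiv.Perm.mem_support.1 this
  exact isCycle_finRotate.sameCycle (h a) (h b)

theorem gam_tr {N : ℕ} (hN : 2 ≤ N) (τ : Perm (Fin N)) : Tr (gam τ) := by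
  have h1 : ∀ j, (gam τ).SameCycle (Sum.inr j) (Sum.inr (finRotate N j)) := by
    intro j
    have e1 : (gam τ).SameCycle (Sum.inr j) (gam τ (Sum.inr j)) :=
      Equiv.Perm.sameCycle_apply_right.2 (Equiv.Perm.SameCycle.refl _ _)
    have e2 : (gam τ).SameCycle (Sum.inr j) (gam τ (gam τ (Sum.inr j))) :=
      Equiv.Perm.sameCycle_apply_right.2 e1
    simpa using e2
  have h2 : ∀ (n : ℕ) j, (gam τ).SameCycle (Sum.inr j) (Sum.inr ((finRotate N ^ n) j)) := by
    intro n
    induction n with
    | zero => intro j; exact Equiv.Perm.SameCycle.refl _ _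
    | succ n ih =>
      intro j
      rw [pow_succ', Equiv.Perm.mul_apply]
      exact (ih j).trans (h1 _)
  have h3 : ∀ j j', (gam τ).SameCycle (Sum.inr j) (Sum.inr j') := by
    intro j j'
    obtain ⟨n, hn⟩ := (rot_sameCycle hN j j').exists_nat_pow_eq
    rw [← hn]
    exact h2 n j
  have h4 : ∀ i, (gam τ).SameCycle (Sum.inr (τ.symm i)) (Sum.inl i) := by
    intro i
    have e1 : (gam τ).SameCycle (Sum.inr (τ.symm i)) (gam τ (Sum.inr (τ.symm i))) :=
      Equiv.Perm.sameCycle_apply_right.2 (Equiv.Perm.SameCycle.refl _ _)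
    simpa using e1
  have h5 : ∀ (j) (a : B N), (gam τ).SameCycle (Sum.inr j) a := by
    intro j a
    rcases a with i | j'
    · exact (h3 j _).trans (h4 i)
    · exact h3 j j'
  intro a b
  have j : Fin N := ⟨0, by omega⟩
  exact (h5 j a).symm.trans (h5 j b)

section

variable {F : Type} [Field F] {ι : Type} [DecidableEq ι] {α : Type} [Fintype α] [DecidableEq α]

/-- the matrix of the central function -/
def cmat (F : Type) [Field F] {ι : Type} [DecidableEq ι] {N : ℕ} (u v : B N → ι) :
    Matrix (Fin N) (Fin N) F :=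
  Matrix.of fun i j => if (u (Sum.inl i), v (Sum.inl i)) =
    (v (Sum.inr j), u (Sum.inr (finRotate N j))) then 1 else 0

/-- the central function -/
def c (F : Type) [Field F] (ι : Type) [DecidableEq ι] (N : ℕ) : V F ι (B N) :=
  fun u v => (cmat F u v).det

theorem c_eq (N : ℕ) (u v : B N → ι) :
    c F ι N u v = ∑ τ : Perm (Fin N), ((Equiv.Perm.sign τ : ℤ) : F) * T F (gam τ) u v := by
  unfold c
  rw [Matrix.det_apply']
  refine Finset.sum_congr rfl fun τ _ => ?_
  congr 1
  simp only [cmat, Matrix.of_apply]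
  rw [Finset.prod_ite_zero]
  unfold T
  simp only [Finset.prod_const_one]
  congr 1
  apply propext
  constructor
  · intro h
    funext a
    rcases a with i | j
    · have := h (τ.symm i) (Finset.mem_univ _)
      simp only [Prod.mk.injEq, apply_symm_apply] at this
      exact this.2
    · have := h j (Finset.mem_univ _)
      simp only [Prod.mk.injEq] at this
      exact this.1.symm
  · intro h j _
    subst h
    simp

theorem c_alt {N : ℕ} (i j : Fin N) (hij : i ≠ j) (u v : B N → ι) :
    c F ι N (u ∘ swap (Sum.inl i) (Sum.inl j)) (v ∘ swap (Sum.inl i) (Sum.inl j)) =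
      - c F ι N u v := by
  unfold c
  have h : cmat F (u ∘ swap (Sum.inl i) (Sum.inl j)) (v ∘ swap (Sum.inl i) (Sum.inl j)) =
      (cmat F u v).submatrix (swap i j) id := by
    ext a b
    simp only [cmat, Matrix.of_apply, Matrix.submatrix_apply, Function.comp, id]
    have e1 : ∀ l : Fin N, swap (Sum.inl i : B N) (Sum.inl j) (Sum.inr l) = Sum.inr l := fun l =>
      swap_apply_of_ne_of_ne (by simp) (by simp)
    have e2 : swap (Sum.inl i : B N) (Sum.inl j) (Sum.inl a) = Sum.inl (swap i j a) := by
      by_cases h1 : a = i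
      · subst h1; simp
      by_cases h2 : a = j
      · subst h2; simp
      rw [swap_apply_of_ne_of_ne h1 h2, swap_apply_of_ne_of_ne (by simpa using h1)
        (by simpa using h2)]
    simp only [e1, e2]
  rw [h, Matrix.det_permute, Equiv.Perm.sign_swap hij]
  simp

theorem mul_ite01 (P Q : Prop) [Decidable P] [Decidable Q] [Decidable (P ∧ Q)] :
    (if P then (1 : F) else 0) * (if Q then 1 else 0) = if P ∧ Q then 1 else 0 := by
  by_cases hP : P <;> by_cases hQ : Q <;> simp [hP, hQ]

/-- trace monomials with the variables in `s` replaced by the identity matrix -/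
def Toff (F : Type) [Field F] {ι : Type} [DecidableEq ι] {α : Type} [Fintype α] [DecidableEq α]
    (s : Finset α) (ρ : Perm α) : V F ι α :=
  fun u v => if ∀ x, x ∉ s → v x = u (ρ x) then 1 else 0

/-- the product of the central function in the block `b` and a trace monomial -/
def Frho (F : Type) [Field F] {ι : Type} [DecidableEq ι] {α : Type} [Fintype α] [DecidableEq α]
    {N : ℕ} (b : B N ↪ α) (ρ : Perm α) : V F ι α :=
  fun u v => c F ι N (u ∘ b) (v ∘ b) * Toff F (Finset.univ.map b) ρ u v

theorem Frho_eq {N : ℕ} (b : B N ↪ α) (ρ : Perm α) (hρ : ∀ y, ρ (b y) = b y) :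
    Frho F (ι := ι) b ρ = ∑ τ : Perm (Fin N),
      ((Equiv.Perm.sign τ : ℤ) : F) • T F (ρ * (gam τ).viaEmbedding b) := by
  funext u v
  rw [Finset.sum_apply, Finset.sum_apply]
  unfold Frho
  rw [c_eq, Finset.sum_mul]
  refine Finset.sum_congr rfl fun τ _ => ?_
  rw [mul_assoc]
  show _ = ((Equiv.Perm.sign τ : ℤ) : F) * T F (ρ * (gam τ).viaEmbedding b) u v
  congr 1
  unfold T Toff
  rw [mul_ite01]
  congr 1
  apply propext
  constructor
  · rintro ⟨h1, h2⟩
    funext x
    by_cases hx : x ∈ Finset.univ.map b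
    · obtain ⟨y, -, rfl⟩ := Finset.mem_map.1 hx
      have := congrFun h1 y
      simp only [Function.comp] at this
      rw [this, Function.comp, Equiv.Perm.mul_apply, Equiv.Perm.viaEmbedding_apply, hρ]
    · have hx' : x ∉ Set.range b := by
        rintro ⟨y, rfl⟩
        exact hx (Finset.mem_map.2 ⟨y, Finset.mem_univ _, rfl⟩)
      rw [Function.comp, Equiv.Perm.mul_apply, Equiv.Perm.viaEmbedding_apply_of_notMem _ _ _ hx']
      exact h2 x hx
  · intro h
    constructor
    · funext y
      have := congrFun h (b y)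
      simp only [Function.comp] at this ⊢
      rw [this, Equiv.Perm.mul_apply, Equiv.Perm.viaEmbedding_apply, hρ]
    · intro x hx
      have hx' : x ∉ Set.range b := by
        rintro ⟨y, rfl⟩
        exact hx (Finset.mem_map.2 ⟨y, Finset.mem_univ _, rfl⟩)
      have := congrFun h x
      rw [Function.comp, Equiv.Perm.mul_apply,
        Equiv.Perm.viaEmbedding_apply_of_notMem _ _ _ hx'] at this
      exact this

theorem Frho_alt {N : ℕ} (b : B N ↪ α) (ρ : Perm α) (hρ : ∀ y, ρ (b y) = b y) (i j : Fin N)
    (hij : i ≠ j) (u v : α → ι) :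
    Frho F b ρ (u ∘ swap (b (Sum.inl i)) (b (Sum.inl j)))
      (v ∘ swap (b (Sum.inl i)) (b (Sum.inl j))) = - Frho F b ρ u v := by
  unfold Frho
  have e1 : ∀ w : α → ι, (w ∘ swap (b (Sum.inl i)) (b (Sum.inl j))) ∘ b =
      (w ∘ b) ∘ swap (Sum.inl i) (Sum.inl j) := by
    intro w
    funext y
    simp only [Function.comp]
    rw [← Function.Injective.map_swap b.injective]
  rw [e1, e1, c_alt i j hij]
  have e2 : Toff F (Finset.univ.map b) ρ (u ∘ swap (b (Sum.inl i)) (b (Sum.inl j)))
      (v ∘ swap (b (Sum.inl i)) (b (Sum.inl j))) = Toff F (Finset.univ.map b) ρ u v := by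
    unfold Toff
    congr 1
    apply propext
    have key : ∀ x, x ∉ Finset.univ.map b →
        swap (b (Sum.inl i)) (b (Sum.inl j)) x = x := by
      intro x hx
      apply swap_apply_of_ne_of_ne
      · rintro rfl; exact hx (Finset.mem_map.2 ⟨_, Finset.mem_univ _, rfl⟩)
      · rintro rfl; exact hx (Finset.mem_map.2 ⟨_, Finset.mem_univ _, rfl⟩)
    have key2 : ∀ x, x ∉ Finset.univ.map b → ρ x ∉ Finset.univ.map b := by
      intro x hx h
      obtain ⟨y, -, hy⟩ := Finset.mem_map.1 h
      rw [← hρ y] at hy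
      exact hx (Finset.mem_map.2 ⟨y, Finset.mem_univ _, ρ.injective hy⟩)
    refine forall_congr' fun x => forall_congr' fun hx => ?_
    simp only [Function.comp]
    rw [key x hx, key _ (key2 x hx)]
  rw [e2]
  ring

variable [Fintype ι] [CharZero F]

/-- the permutations used in the merging of cycles -/
def PP (ρ : Perm α) (Z : Finset α) : Set (Perm α) :=
  {π | (∀ a ∈ Z, ∀ a' ∈ Z, π.SameCycle a a') ∧ (∀ a, a ∉ Z → π a = ρ a) ∧ ∀ a ∈ Z, π a ∈ Z}

/-- **Key lemma.** The product of the central function and a trace monomial is in `Q`. -/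
theorem Frho_mem_Q {N : ℕ} (hN : N = Fintype.card ι * Fintype.card ι) (hN2 : 2 ≤ N)
    (b : B N ↪ α) (ρ : Perm α) (hρ : ∀ y, ρ (b y) = b y) :
    Frho F (ι := ι) b ρ ∈ Q F ι α := by
  classical
  have hk : (Fintype.card ι : F) ≠ 0 := by
    rw [Nat.cast_ne_zero]
    rintro h
    rw [h] at hN
    omega
  have key : ∀ (n : ℕ) (Z : Finset α), Zᶜ.card = n → (∀ y, b y ∈ Z) → (∀ a ∈ Z, ρ a ∈ Z) →
      Frho F (ι := ι) b ρ ∈ Submodule.span F {f | ∃ π ∈ PP ρ Z, f = T F π} →
      Frho F (ι := ι) b ρ ∈ Q F ι α := by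
    intro n
    induction n using Nat.strong_induction_on with
    | _ n ih =>
      intro Z hZn hbZ hρZ hmem
      by_cases hZ : Z = Finset.univ
      · subst hZ
        refine Submodule.span_mono ?_ hmem
        rintro f ⟨π, hπ, rfl⟩
        exact ⟨π, fun a a' => hπ.1 a (Finset.mem_univ _) a' (Finset.mem_univ _), rfl⟩
      obtain ⟨z, hz⟩ : ∃ z, z ∉ Z := by
        by_contra hcon
        push Not at hcon
        exact hZ (Finset.eq_univ_iff_forall.2 hcon)
      -- `Z` is closed under the inverse
      have hρpow : ∀ (m : ℕ) a, a ∈ Z → (ρ ^ m) a ∈ Z := by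
        intro m
        induction m with
        | zero => intro a ha; simpa using ha
        | succ m ihm =>
          intro a ha
          rw [pow_succ', Equiv.Perm.mul_apply]
          exact hρZ _ (ihm a ha)
      have hoff : ∀ a, ρ.SameCycle z a → a ∉ Z := by
        intro a ha haZ
        obtain ⟨m, hm⟩ := ha.symm.exists_nat_pow_eq
        rw [← hm] at hz
        exact hz (hρpow m a haZ)
      set Z' : Finset α := Z ∪ Finset.univ.filter (fun a => ρ.SameCycle z a) with hZ'
      have hzZ' : z ∈ Z' := by
        rw [hZ', Finset.mem_union, Finset.mem_filter]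
        exact Or.inr ⟨Finset.mem_univ _, Equiv.Perm.SameCycle.refl _ _⟩
      have hZZ' : Z ⊆ Z' := Finset.subset_union_left
      have hmemZ' : ∀ a, a ∈ Z' ↔ a ∈ Z ∨ ρ.SameCycle z a := by
        intro a
        rw [hZ', Finset.mem_union, Finset.mem_filter]
        simp
      have hρZ' : ∀ a ∈ Z', ρ a ∈ Z' := by
        intro a ha
        rw [hmemZ'] at ha ⊢
        rcases ha with ha | ha
        · exact Or.inl (hρZ a ha)
        · exact Or.inr (Equiv.Perm.sameCycle_apply_right.2 ha)
      have hcard : Z'ᶜ.card < Zᶜ.card := by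
        apply Finset.card_lt_card
        rw [Finset.ssubset_iff_of_subset (Finset.compl_subset_compl.2 hZZ')]
        exact ⟨z, Finset.mem_compl.2 hz, fun h => (Finset.mem_compl.1 h) hzZ'⟩
      refine ih _ (hZn ▸ hcard) Z' rfl (fun y => hZZ' (hbZ y)) hρZ' ?_
      -- use the identity
      have hident := alt_identity hN (Frho F (ι := ι) b ρ) (fun i => b (Sum.inl i))
        (fun i j h => Sum.inl_injective (b.injective h))
        (fun i j hij u v => Frho_alt b ρ hρ i j hij u v) z
        (fun i h => hz (h ▸ hbZ _))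
      have hfr : Frho F (ι := ι) b ρ = (Fintype.card ι : F)⁻¹ •
          ∑ i, R F ι (swap (b (Sum.inl i)) z) (Frho F (ι := ι) b ρ) := by
        rw [hident, smul_smul, inv_mul_cancel₀ hk, one_smul]
      rw [hfr]
      apply Submodule.smul_mem
      apply Submodule.sum_mem
      intro i _
      have hmap : (Submodule.span F {f | ∃ π ∈ PP ρ Z, f = T F π}).map
          (R F ι (swap (b (Sum.inl i)) z)) ≤
          Submodule.span F {f | ∃ π ∈ PP ρ Z', f = T (ι := ι) F π} := by
        rw [Submodule.map_span, Submodule.span_le]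
        rintro _ ⟨_, ⟨π, ⟨h1, h2, h3⟩, rfl⟩, rfl⟩
        rw [R_T]
        apply Submodule.subset_span
        refine ⟨π * swap (b (Sum.inl i)) z, ?_, rfl⟩
        set x := b (Sum.inl i) with hx
        have hxZ : x ∈ Z := hbZ _
        have hxz : x ≠ z := fun h => hz (h ▸ hxZ)
        -- powers of π and of ρ agree at `z`
        have hpz : ∀ m : ℕ, (π ^ m) z = (ρ ^ m) z := by
          intro m
          induction m with
          | zero => rfl
          | succ m ihm =>
            rw [pow_succ', Equiv.Perm.mul_apply, ihm, pow_succ', Equiv.Perm.mul_apply]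
            apply h2
            apply hoff
            exact ⟨(m : ℤ), by rw [zpow_natCast]⟩
        have hzc : ∀ a, ρ.SameCycle z a → π.SameCycle z a := by
          intro a ha
          obtain ⟨m, hm⟩ := ha.exists_nat_pow_eq
          exact ⟨(m : ℤ), by rw [zpow_natCast, hpz, hm]⟩
        have hnot : ¬ π.SameCycle x z := by
          intro h
          obtain ⟨m, hm⟩ := h.exists_nat_pow_eq
          have : ∀ m : ℕ, (π ^ m) x ∈ Z := by
            intro m
            induction m with
            | zero => simpa using hxZ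
            | succ m ihm =>
              rw [pow_succ', Equiv.Perm.mul_apply]
              exact h3 _ ihm
          exact hz (hm ▸ this m)
        have hall : ∀ a ∈ Z', (π * swap x z).SameCycle x a := by
          intro a ha
          apply merge_cycles π x z hnot
          rcases (hmemZ' a).1 ha with ha | ha
          · exact Or.inl (h1 x hxZ a ha)
          · exact Or.inr (hzc a ha)
        refine ⟨fun a ha a' ha' => (hall a ha).symm.trans (hall a' ha'), ?_, ?_⟩
        · intro a ha
          have hax : a ≠ x := fun h => ha (h ▸ hZZ' hxZ)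
          have haz : a ≠ z := fun h => ha (h ▸ hzZ')
          rw [Equiv.Perm.mul_apply, swap_apply_of_ne_of_ne hax haz]
          exact h2 a (fun h => ha (hZZ' h))
        · intro a ha
          rw [Equiv.Perm.mul_apply]
          by_cases hax : a = x
          · rw [hax, swap_apply_left, h2 z hz]
            exact hρZ' z hzZ'
          by_cases haz : a = z
          · rw [haz, swap_apply_right]
            exact hZZ' (h3 x hxZ)
          rw [swap_apply_of_ne_of_ne hax haz]
          rcases (hmemZ' a).1 ha with ha | ha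
          · exact hZZ' (h3 a ha)
          · rw [h2 a (hoff a ha)]
            exact hρZ' a ((hmemZ' a).2 (Or.inr ha))
      exact hmap ⟨_, hmem, rfl⟩
  refine key _ (Finset.univ.map b) rfl (fun y => Finset.mem_map.2 ⟨y, Finset.mem_univ _, rfl⟩)
    ?_ ?_
  · intro a ha
    obtain ⟨y, -, rfl⟩ := Finset.mem_map.1 ha
    rw [hρ]
    exact ha
  · rw [Frho_eq b ρ hρ]
    apply Submodule.sum_mem
    intro τ _
    apply Submodule.smul_mem
    apply Submodule.subset_span
    refine ⟨_, ⟨?_, ?_, ?_⟩, rfl⟩
    · have hpw : ∀ (m : ℕ) y, ((ρ * (gam τ).viaEmbedding b) ^ m) (b y) = b (((gam τ) ^ m) y) := by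
        intro m
        induction m with
        | zero => intro y; rfl
        | succ m ihm =>
          intro y
          rw [pow_succ', Equiv.Perm.mul_apply, ihm, Equiv.Perm.mul_apply,
            Equiv.Perm.viaEmbedding_apply, hρ, pow_succ', Equiv.Perm.mul_apply]
      intro a ha a' ha'
      obtain ⟨y, -, rfl⟩ := Finset.mem_map.1 ha
      obtain ⟨y', -, rfl⟩ := Finset.mem_map.1 ha'
      obtain ⟨m, hm⟩ := (gam_tr hN2 τ y y').exists_nat_pow_eq
      exact ⟨(m : ℤ), by rw [zpow_natCast, hpw, hm]⟩
    · intro a ha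
      have hx' : a ∉ Set.range b := by
        rintro ⟨y, rfl⟩
        exact ha (Finset.mem_map.2 ⟨y, Finset.mem_univ _, rfl⟩)
      rw [Equiv.Perm.mul_apply, Equiv.Perm.viaEmbedding_apply_of_notMem _ _ _ hx']
    · intro a ha
      obtain ⟨y, -, rfl⟩ := Finset.mem_map.1 ha
      rw [Equiv.Perm.mul_apply, Equiv.Perm.viaEmbedding_apply, hρ]
      exact Finset.mem_map.2 ⟨_, Finset.mem_univ _, rfl⟩

end

end Pool.Agent.K1H10.MC
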