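import Pool.Agent.K1H10.MC.Central

/-!
# Contractions of trace functions
-/

set_option autoImplicit false
set_option linter.unusedSectionVars false

namespace Pool.Agent.K1H10.MC

open Equiv

section

variable {F : Type} [Field F] {ι : Type} [DecidableEq ι] [Fintype ι]
  {α : Type} [Fintype α] [DecidableEq α]

/-- replacing the variable `i` by the identity matrix -/
def K (F : Type) [Field F] (ι : Type) [Fintype ι] {α : Type} [DecidableEq α] (i : α) :
    V F ι α →ₗ[F] V F ι α where
  toFun f := fun u v => ∑ p, f (Function.update u i p) (Function.update v i p)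
  map_add' f g := by
    funext u v
    simp [Finset.sum_add_distrib]
  map_smul' t f := by
    funext u v
    simp [Finset.mul_sum]

theorem K_apply (i : α) (f : V F ι α) (u v : α → ι) :
    K F ι i f u v = ∑ p, f (Function.update u i p) (Function.update v i p) := rfl

theorem K_Toff (s : Finset α) (ρ : Perm α) (hρ : ∀ x ∈ s, ρ x = x) (i : α) (hi : i ∉ s) :
    K F ι i (Toff F s ρ) = (if ρ i = i then (Fintype.card ι : F) else 1) •
      Toff F (insert i s) (swap i (ρ i) * ρ) := by
  funext u v
  rw [K_apply]
  show _ = (if ρ i = i then (Fintype.card ι : F) else 1) * Toff F (insert i s) (swap i (ρ i) * ρ) u v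
  unfold Toff
  by_cases h : ρ i = i
  · rw [if_pos h]
    have e1 : swap i (ρ i) * ρ = ρ := by rw [h, swap_self]; rfl
    rw [e1]
    have e2 : ∀ p, (∀ x, x ∉ s → Function.update v i p x = Function.update u i p (ρ x)) ↔
        ∀ x, x ∉ insert i s → v x = u (ρ x) := by
      intro p
      constructor
      · intro hh x hx
        rw [Finset.mem_insert, not_or] at hx
        have := hh x hx.2
        rw [Function.update_of_ne hx.1, Function.update_of_ne] at this
        · exact this
        · intro h'
          rw [← h] at h'
          exact hx.1 (ρ.injective h')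
      · intro hh x hx
        by_cases hxi : x = i
        · subst hxi
          rw [h]
          simp
        · rw [Function.update_of_ne hxi, Function.update_of_ne]
          · exact hh x (by rw [Finset.mem_insert, not_or]; exact ⟨hxi, hx⟩)
          · intro h'
            rw [← h] at h'
            exact hxi (ρ.injective h')
    simp only [e2]
    rw [Finset.sum_const, Finset.card_univ, nsmul_eq_mul]
  · rw [if_neg h, one_mul]
    have h1 : ρ.symm i ∉ s := by
      intro h1
      have := hρ _ h1
      rw [apply_symm_apply] at this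
      rw [← this] at h1
      exact hi h1
    have h2 : ρ.symm i ≠ i := by
      intro h2
      apply h
      conv_lhs => rw [← h2]
      simp
    have e2 : ∀ p, (∀ x, x ∉ s → Function.update v i p x = Function.update u i p (ρ x)) ↔
        (p = v (ρ.symm i) ∧ ∀ x, x ∉ insert i s → v x = u ((swap i (ρ i) * ρ) x)) := by
      intro p
      constructor
      · intro hh
        have hp : p = v (ρ.symm i) := by
          have := hh _ h1
          rw [Function.update_of_ne h2, apply_symm_apply, Function.update_self] at this
          exact this.symm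
        refine ⟨hp, ?_⟩
        intro x hx
        rw [Finset.mem_insert, not_or] at hx
        rw [Equiv.Perm.mul_apply]
        by_cases hxl : ρ x = i
        · rw [hxl, swap_apply_left]
          have h3 := hh i hi
          rw [Function.update_self, Function.update_of_ne h] at h3
          rw [← h3, hp, ← hxl, symm_apply_apply]
        · have h3 := hh x hx.2
          rw [Function.update_of_ne hx.1, Function.update_of_ne hxl] at h3
          rw [swap_apply_of_ne_of_ne hxl (fun h' => hx.1 (ρ.injective h'))]
          exact h3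
      · rintro ⟨hp, hh⟩ x hx
        have h4 := hh (ρ.symm i) (by rw [Finset.mem_insert, not_or]; exact ⟨h2, h1⟩)
        rw [Equiv.Perm.mul_apply, apply_symm_apply, swap_apply_left] at h4
        by_cases hxi : x = i
        · subst hxi
          rw [Function.update_self, Function.update_of_ne h, hp, h4]
        · rw [Function.update_of_ne hxi]
          by_cases hxl : ρ x = i
          · rw [hxl, Function.update_self, hp, ← hxl, symm_apply_apply]
          · rw [Function.update_of_ne hxl]
            have h3 := hh x (by rw [Finset.mem_insert, not_or]; exact ⟨hxi, hx⟩)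
            rw [Equiv.Perm.mul_apply,
              swap_apply_of_ne_of_ne hxl (fun h' => hxi (ρ.injective h'))] at h3
            exact h3
    simp only [e2]
    by_cases hQ : ∀ x, x ∉ insert i s → v x = u ((swap i (ρ i) * ρ) x)
    · have hQ' : ∀ p, (p = v (ρ.symm i) ∧ ∀ x, x ∉ insert i s → v x = u ((swap i (ρ i) * ρ) x)) ↔
          p = v (ρ.symm i) := fun p => ⟨fun h => h.1, fun h => ⟨h, hQ⟩⟩
      simp only [hQ']
      rw [if_pos hQ]
      simp
    · simp only [hQ, and_false, if_false, Finset.sum_const_zero]

theorem Toff_empty (σ : Perm α) : Toff F (ι := ι) ∅ σ = T F σ := by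
  funext u v
  unfold Toff T
  congr 1
  apply propext
  constructor
  · intro h; funext x; exact h x (Finset.notMem_empty x)
  · intro h x _; exact congrFun h x

/-- replacing the variables of a block by identity matrices -/
noncomputable def KB (F : Type) [Field F] (ι : Type) [Fintype ι] {α β : Type} [Fintype β] [DecidableEq β]
    (b : β → α) : V F ι α →ₗ[F] V F ι α where
  toFun f := fun u v => ∑ a : β → ι, f (Function.extend b a u) (Function.extend b a v)
  map_add' f g := by
    funext u v
    simp [Finset.sum_add_distrib]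
  map_smul' t f := by
    funext u v
    simp [Finset.mul_sum]

theorem KB_apply {β : Type} [Fintype β] [DecidableEq β] (b : β → α) (f : V F ι α) (u v : α → ι) :
    KB F ι b f u v = ∑ a : β → ι, f (Function.extend b a u) (Function.extend b a v) := rfl

theorem extend_cons {m : ℕ} (b : Fin (m + 1) → α) (hb : Function.Injective b) (p : ι)
    (a : Fin m → ι) (u : α → ι) :
    Function.extend b (Fin.cons p a : Fin (m + 1) → ι) u =
      Function.update (Function.extend (b ∘ Fin.succ) a u) (b 0) p := by
  funext x
  by_cases hx : ∃ y, b y = x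
  · obtain ⟨y, rfl⟩ := hx
    rw [hb.extend_apply]
    refine Fin.cases ?_ (fun j => ?_) y
    · simp
    · rw [Fin.cons_succ, Function.update_of_ne (fun h => Fin.succ_ne_zero j (hb h))]
      have : Function.Injective (b ∘ Fin.succ) := hb.comp (Fin.succ_injective m)
      exact (this.extend_apply a u j).symm
  · rw [Function.extend_apply' _ _ _ hx, Function.update_of_ne (fun h => hx ⟨0, h.symm⟩),
      Function.extend_apply' _ _ _ (fun ⟨y, hy⟩ => hx ⟨y.succ, hy⟩)]

theorem KB_succ {m : ℕ} (b : Fin (m + 1) → α) (hb : Function.Injective b) (f : V F ι α) :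
    KB F ι b f = KB F ι (b ∘ Fin.succ) (K F ι (b 0) f) := by
  funext u v
  rw [KB_apply, KB_apply]
  simp only [K_apply]
  rw [Finset.sum_comm]
  have := (Fin.consEquiv (fun _ : Fin (m + 1) => ι)).sum_comp
    (fun a : Fin (m + 1) → ι => f (Function.extend b a u) (Function.extend b a v))
  rw [← this, Fintype.sum_prod_type]
  refine Finset.sum_congr rfl fun p _ => Finset.sum_congr rfl fun a _ => ?_
  show f (Function.extend b (Fin.cons p a : Fin (m + 1) → ι) u)
    (Function.extend b (Fin.cons p a : Fin (m + 1) → ι) v) = _
  rw [extend_cons b hb, extend_cons b hb]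

theorem KB_Toff_fin (m : ℕ) : ∀ (b : Fin m → α), Function.Injective b → ∀ (s : Finset α)
    (ρ : Perm α), (∀ x ∈ s, ρ x = x) → (∀ y, b y ∉ s) →
    ∃ (κ : F) (ρ' : Perm α), (∀ x ∈ s, ρ' x = x) ∧ (∀ y, ρ' (b y) = b y) ∧
      KB F ι b (Toff F s ρ) = κ • Toff F (s ∪ Finset.univ.image b) ρ' := by
  induction m with
  | zero =>
    intro b hb s ρ hρ hbs
    refine ⟨1, ρ, hρ, fun y => y.elim0, ?_⟩
    funext u v
    rw [KB_apply]
    have e : ∀ (a : Fin 0 → ι) (w : α → ι), Function.extend b a w = w := by
      intro a w
      funext x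
      exact Function.extend_apply' _ _ _ (fun ⟨y, _⟩ => y.elim0)
    simp [e]
  | succ m ih =>
    intro b hb s ρ hρ hbs
    rw [KB_succ b hb, K_Toff s ρ hρ (b 0) (hbs 0), map_smul]
    have hb' : Function.Injective (b ∘ Fin.succ) := hb.comp (Fin.succ_injective m)
    obtain ⟨κ, ρ', h1, h2, h3⟩ := ih (b ∘ Fin.succ) hb' (insert (b 0) s)
      (swap (b 0) (ρ (b 0)) * ρ) (by
        intro x hx
        rw [Equiv.Perm.mul_apply]
        rcases Finset.mem_insert.1 hx with rfl | hx
        · rw [swap_apply_right]
        · rw [hρ x hx, swap_apply_of_ne_of_ne]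
          · rintro rfl; exact hbs 0 hx
          · intro h'
            have : ρ x = ρ (b 0) := by rw [hρ x hx]; exact h'
            have := ρ.injective this
            subst this
            exact hbs 0 hx) (by
        intro y hy
        rcases Finset.mem_insert.1 hy with h | h
        · exact Fin.succ_ne_zero y (hb h)
        · exact hbs _ h)
    refine ⟨(if ρ (b 0) = b 0 then (Fintype.card ι : F) else 1) * κ, ρ', ?_, ?_, ?_⟩
    · intro x hx
      exact h1 x (Finset.mem_insert_of_mem hx)
    · intro y
      refine Fin.cases ?_ (fun j => ?_) y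
      · exact h1 _ (Finset.mem_insert_self _ _)
      · exact h2 j
    · rw [h3, smul_smul]
      congr 2
      ext x
      simp only [Finset.mem_union, Finset.mem_insert, Finset.mem_image, Finset.mem_univ, true_and,
        Function.comp]
      constructor
      · rintro ((h | h) | ⟨y, h⟩)
        · exact Or.inr ⟨0, h.symm⟩
        · exact Or.inl h
        · exact Or.inr ⟨_, h⟩
      · rintro (h | ⟨y, h⟩)
        · exact Or.inl (Or.inr h)
        · revert h
          refine Fin.cases ?_ (fun j => ?_) y
          · intro h; exact Or.inl (Or.inl h.symm)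
          · intro h; exact Or.inr ⟨j, h⟩

theorem KB_T {β : Type} [Fintype β] [DecidableEq β] (b : β ↪ α) (σ : Perm α) :
    ∃ (κ : F) (ρ' : Perm α), (∀ y, ρ' (b y) = b y) ∧
      KB F ι b (T F σ) = κ • Toff F (Finset.univ.map b) ρ' := by
  obtain ⟨κ, ρ', -, h2, h3⟩ := KB_Toff_fin (F := F) (ι := ι) (Fintype.card β)
    (b ∘ (Fintype.equivFin β).symm) (b.injective.comp (Fintype.equivFin β).symm.injective) ∅ σ
    (fun x hx => absurd hx (Finset.notMem_empty x)) (fun _ => Finset.notMem_empty _)
  refine ⟨κ, ρ', ?_, ?_⟩
  · intro y
    have := h2 (Fintype.equivFin β y)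
    simpa using this
  · rw [Toff_empty] at h3
    have e1 : KB F ι (b ∘ (Fintype.equivFin β).symm) (T F σ) = KB F ι b (T F σ) := by
      funext u v
      rw [KB_apply, KB_apply]
      rw [← (Equiv.arrowCongr (Fintype.equivFin β) (Equiv.refl ι)).sum_comp]
      refine Finset.sum_congr rfl fun a _ => ?_
      have e2 : ∀ w : α → ι, Function.extend (b ∘ (Fintype.equivFin β).symm)
          ((Equiv.arrowCongr (Fintype.equivFin β) (Equiv.refl ι)) a) w = Function.extend b a w := by
        intro w
        funext x
        by_cases hx : ∃ y, b y = x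
        · obtain ⟨y, rfl⟩ := hx
          rw [b.injective.extend_apply]
          have hinj := b.injective.comp (Fintype.equivFin β).symm.injective
          have := hinj.extend_apply ((Equiv.arrowCongr (Fintype.equivFin β) (Equiv.refl ι)) a) w
            (Fintype.equivFin β y)
          simpa using this
        · rw [Function.extend_apply' _ _ _ hx, Function.extend_apply']
          rintro ⟨y, hy⟩
          exact hx ⟨_, hy⟩
      rw [e2, e2]
    rw [← e1, h3]
    congr 2
    ext x
    simp only [Finset.mem_union, Finset.mem_image, Finset.mem_univ, true_and,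
        Function.comp, Finset.mem_map, Finset.notMem_empty, false_or]
    constructor
    · rintro ⟨y, h⟩; exact ⟨_, h⟩
    · rintro ⟨y, h⟩; exact ⟨Fintype.equivFin β y, by simpa using h⟩

/-- pairing with the central function in a block -/
noncomputable def pr (F : Type) [Field F] (ι : Type) [DecidableEq ι] [Fintype ι] {α : Type} {N : ℕ}
    (b : B N → α) : V F ι α →ₗ[F] V F ι α where
  toFun f := fun u v => ∑ a : B N → ι, ∑ a' : B N → ι, c F ι N a a' *
    f (Function.extend b a u) (Function.extend b a' v)
  map_add' f g := by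
    funext u v
    simp [Finset.sum_add_distrib, mul_add]
  map_smul' t f := by
    funext u v
    simp only [Pi.smul_apply, smul_eq_mul, RingHom.id_apply, Finset.mul_sum]
    refine Finset.sum_congr rfl fun _ _ => Finset.sum_congr rfl fun _ _ => ?_
    ring

theorem pr_apply {N : ℕ} (b : B N → α) (f : V F ι α) (u v : α → ι) :
    pr F ι b f u v = ∑ a : B N → ι, ∑ a' : B N → ι, c F ι N a a' *
      f (Function.extend b a u) (Function.extend b a' v) := rfl

/-- multiplication by the central function in a block, after the pairing -/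
noncomputable def PiB (F : Type) [Field F] (ι : Type) [DecidableEq ι] [Fintype ι] {α : Type} {N : ℕ}
    (b : B N → α) : V F ι α →ₗ[F] V F ι α where
  toFun f := fun u v => c F ι N (u ∘ b) (v ∘ b) * pr F ι b f u v
  map_add' f g := by
    funext u v
    simp [mul_add]
  map_smul' t f := by
    funext u v
    simp only [map_smul, Pi.smul_apply, smul_eq_mul, RingHom.id_apply]
    ring

theorem PiB_apply {N : ℕ} (b : B N → α) (f : V F ι α) (u v : α → ι) :
    PiB F ι b f u v = c F ι N (u ∘ b) (v ∘ b) * pr F ι b f u v := rfl

theorem pr_T {N : ℕ} (b : B N ↪ α) (σ : Perm α) :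
    pr F ι b (T F σ) = ∑ τ : Perm (Fin N), ((Equiv.Perm.sign τ : ℤ) : F) •
      KB F ι b (T F (σ * ((gam τ).viaEmbedding b)⁻¹)) := by
  funext u v
  rw [Finset.sum_apply, Finset.sum_apply, pr_apply]
  simp only [c_eq, Finset.sum_mul]
  have e0 : ∀ a : B N → ι, ∑ a' : B N → ι, ∑ τ : Perm (Fin N),
      ((Equiv.Perm.sign τ : ℤ) : F) * T F (gam τ) a a' *
        T F σ (Function.extend b a u) (Function.extend b a' v) =
      ∑ τ : Perm (Fin N), ((Equiv.Perm.sign τ : ℤ) : F) *
        T F (σ * ((gam τ).viaEmbedding b)⁻¹) (Function.extend b a u) (Function.extend b a v) := by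
    intro a
    rw [Finset.sum_comm]
    refine Finset.sum_congr rfl fun τ _ => ?_
    rw [Finset.sum_eq_single (a ∘ gam τ)]
    · have e1 : T F (gam τ) a (a ∘ gam τ) = 1 := by unfold T; rw [if_pos rfl]
      rw [e1, mul_one]
      congr 1
      rw [← R_T]
      show _ = T F σ (Function.extend b a u) (Function.extend b a v ∘
        (((gam τ).viaEmbedding b)⁻¹).symm)
      congr 1
      funext x
      show _ = Function.extend b a v ((gam τ).viaEmbedding b x)
      by_cases hx : ∃ y, b y = x
      · obtain ⟨y, rfl⟩ := hx
        rw [b.injective.extend_apply, Equiv.Perm.viaEmbedding_apply, b.injective.extend_apply]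
        rfl
      · rw [Function.extend_apply' _ _ _ hx, Equiv.Perm.viaEmbedding_apply_of_notMem _ _ _ hx,
          Function.extend_apply' _ _ _ hx]
    · intro a' _ ha'
      have e1 : T F (gam τ) a a' = 0 := by unfold T; rw [if_neg ha']
      rw [e1, mul_zero, zero_mul]
    · intro h; exact absurd (Finset.mem_univ _) h
  rw [Finset.sum_congr rfl (fun a _ => e0 a), Finset.sum_comm]
  refine Finset.sum_congr rfl fun τ _ => ?_
  show _ = ((Equiv.Perm.sign τ : ℤ) : F) * KB F ι b (T F (σ * ((gam τ).viaEmbedding b)⁻¹)) u v
  rw [KB_apply, Finset.mul_sum]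

variable [CharZero F]

/-- the operator `PiB` maps trace functions to `Q` -/
theorem PiB_mem_Q {N : ℕ} (hN : N = Fintype.card ι * Fintype.card ι) (hN2 : 2 ≤ N)
    (b : B N ↪ α) (f : V F ι α) (hf : f ∈ S F ι α) : PiB F ι b f ∈ Q F ι α := by
  have : S F ι α ≤ (Q F ι α).comap (PiB F ι b) := by
    unfold S
    rw [Submodule.span_le]
    rintro _ ⟨σ, rfl⟩
    show PiB F ι b (T F σ) ∈ Q F ι α
    have e : PiB F ι b (T F σ) = ∑ τ : Perm (Fin N), ((Equiv.Perm.sign τ : ℤ) : F) •
        (fun u v => c F ι N (u ∘ b) (v ∘ b) *
          KB F ι b (T F (σ * ((gam τ).viaEmbedding b)⁻¹)) u v) := by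
      funext u v
      rw [PiB_apply, pr_T, Finset.sum_apply, Finset.sum_apply, Finset.mul_sum, Finset.sum_apply,
        Finset.sum_apply]
      refine Finset.sum_congr rfl fun τ _ => ?_
      show c F ι N (u ∘ b) (v ∘ b) * (((Equiv.Perm.sign τ : ℤ) : F) * _) =
        ((Equiv.Perm.sign τ : ℤ) : F) * _
      ring
    rw [e]
    apply Submodule.sum_mem
    intro τ _
    apply Submodule.smul_mem
    obtain ⟨κ, ρ', h1, h2⟩ := KB_T (F := F) (ι := ι) b (σ * ((gam τ).viaEmbedding b)⁻¹)
    rw [h2]
    have e3 : (fun u v => c F ι N (u ∘ b) (v ∘ b) *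
        (κ • Toff F (ι := ι) (Finset.univ.map b) ρ') u v) = κ • Frho F b ρ' := by
      funext u v
      show c F ι N (u ∘ b) (v ∘ b) * (κ * _) = κ * (c F ι N (u ∘ b) (v ∘ b) * _)
      ring
    rw [e3]
    exact Submodule.smul_mem _ _ (Frho_mem_Q hN hN2 b ρ' h1)
  exact this hf

end

end Pool.Agent.K1H10.MC
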