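import Pool.Agent.K1H10.MC.Bound

/-!
# Codimension bounds
-/

set_option autoImplicit false
set_option linter.unusedSectionVars false

namespace Pool.Agent.K1H10.MC

open Equiv

section

variable {F : Type} [Field F] {ι : Type} [DecidableEq ι] [Fintype ι]

/-- adding a fixed point `0` -/
def hat {n : ℕ} (σ : Perm (Fin n)) : Perm (Fin (n + 1)) := Equiv.Perm.decomposeFin.symm (0, σ)

theorem hat_zero {n : ℕ} (σ : Perm (Fin n)) : hat σ 0 = 0 := by
  unfold hat; simp

theorem hat_succ {n : ℕ} (σ : Perm (Fin n)) (i : Fin n) : hat σ i.succ = (σ i).succ := by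
  unfold hat; simp

theorem exists_hat {n : ℕ} (ρ : Perm (Fin (n + 1))) (h : ρ 0 = 0) : ∃ σ, ρ = hat σ := by
  refine ⟨(Equiv.Perm.decomposeFin ρ).2, ?_⟩
  have h1 : (Equiv.Perm.decomposeFin ρ).1 = 0 := by
    have h2 := congrArg (fun e : Perm (Fin (n + 1)) => e 0)
      (Equiv.Perm.decomposeFin.symm_apply_apply ρ)
    rw [h] at h2
    have h3 : (Equiv.Perm.decomposeFin.symm (Equiv.Perm.decomposeFin ρ)) 0 =
        (Equiv.Perm.decomposeFin ρ).1 :=
      Equiv.Perm.decomposeFin_symm_apply_zero _ _
    exact h3.symm.trans h2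
  unfold hat
  rw [← h1]
  exact (Equiv.Perm.decomposeFin.symm_apply_apply ρ).symm

/-- multiplication by the trace of a new variable -/
def Jm (F : Type) [Field F] (ι : Type) [DecidableEq ι] (n : ℕ) :
    V F ι (Fin n) →ₗ[F] V F ι (Fin (n + 1)) where
  toFun g := fun u v => if u 0 = v 0 then g (u ∘ Fin.succ) (v ∘ Fin.succ) else 0
  map_add' f g := by
    funext u v
    simp only [Pi.add_apply]
    split_ifs <;> simp
  map_smul' t f := by
    funext u v
    simp only [Pi.smul_apply, smul_eq_mul, RingHom.id_apply]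
    split_ifs <;> simp

theorem Jm_apply {n : ℕ} (g : V F ι (Fin n)) (u v : Fin (n + 1) → ι) :
    Jm F ι n g u v = if u 0 = v 0 then g (u ∘ Fin.succ) (v ∘ Fin.succ) else 0 := rfl

theorem Jm_T {n : ℕ} (σ : Perm (Fin n)) : Jm F ι n (T F σ) = T F (hat σ) := by
  funext u v
  rw [Jm_apply]
  unfold T
  by_cases h : u 0 = v 0
  · rw [if_pos h]
    congr 1
    apply propext
    constructor
    · intro h1
      funext x
      refine Fin.cases ?_ (fun i => ?_) x
      · rw [Function.comp, hat_zero, h]
      · rw [Function.comp, hat_succ]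
        exact congrFun h1 i
    · intro h1
      funext i
      have := congrFun h1 i.succ
      rw [Function.comp, hat_succ] at this
      exact this
  · rw [if_neg h, if_neg]
    intro h1
    have := congrFun h1 0
    rw [Function.comp, hat_zero] at this
    exact h this.symm

theorem Jm_mem_S {n : ℕ} (f : V F ι (Fin n)) (hf : f ∈ S F ι (Fin n)) :
    Jm F ι n f ∈ S F ι (Fin (n + 1)) := by
  have : S F ι (Fin n) ≤ (S F ι (Fin (n + 1))).comap (Jm F ι n) := by
    unfold S
    rw [Submodule.span_le]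
    rintro _ ⟨σ, rfl⟩
    show Jm F ι n (T F σ) ∈ S F ι (Fin (n + 1))
    rw [Jm_T]
    exact T_mem_S _
  exact this hf

theorem Jm_inj [Nonempty ι] {n : ℕ} : Function.Injective (Jm F ι n) := by
  obtain ⟨p⟩ := ‹Nonempty ι›
  rw [injective_iff_map_eq_zero]
  intro f hf
  funext u v
  have := congrFun (congrFun hf (Fin.cons p u)) (Fin.cons p v)
  rw [Jm_apply] at this
  simpa using this

theorem extend_succ {n N : ℕ} (b : B N ↪ Fin n) (a : B N → ι) (u : Fin (n + 1) → ι) :
    Function.extend (b.trans (Fin.succEmb n)) a u ∘ Fin.succ =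
      Function.extend b a (u ∘ Fin.succ) := by
  funext x
  by_cases hx : ∃ y, b y = x
  · obtain ⟨y, rfl⟩ := hx
    rw [b.injective.extend_apply]
    exact (b.trans (Fin.succEmb n)).injective.extend_apply a u y
  · rw [Function.extend_apply' _ _ _ hx]
    apply Function.extend_apply'
    rintro ⟨y, hy⟩
    exact hx ⟨y, Fin.succ_injective _ hy⟩

theorem extend_succ_zero {n N : ℕ} (b : B N ↪ Fin n) (a : B N → ι) (u : Fin (n + 1) → ι) :
    Function.extend (b.trans (Fin.succEmb n)) a u 0 = u 0 := by
  apply Function.extend_apply'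
  rintro ⟨y, hy⟩
  exact Fin.succ_ne_zero _ hy

theorem Jm_PiB {n N : ℕ} (b : B N ↪ Fin n) (f : V F ι (Fin n)) :
    Jm F ι n (PiB F ι b f) = PiB F ι (b.trans (Fin.succEmb n)) (Jm F ι n f) := by
  funext u v
  rw [Jm_apply, PiB_apply, PiB_apply, pr_apply, pr_apply]
  simp only [Jm_apply, extend_succ, extend_succ_zero]
  by_cases h : u 0 = v 0
  · simp only [if_pos h]
    rfl
  · simp only [if_neg h, mul_zero, Finset.sum_const_zero]

/-- the scalar functions in `n` variables which are values of trace free polynomials -/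
def D (F : Type) [Field F] (ι : Type) [DecidableEq ι] (n : ℕ) : Submodule F (V F ι (Fin n)) :=
  (Q F ι (Fin (n + 1))).comap (Jm F ι n)

/-- contraction of the variable `0` -/
def Res (F : Type) [Field F] (ι : Type) [Fintype ι] (n : ℕ) :
    V F ι (Fin (n + 1)) →ₗ[F] V F ι (Fin n) where
  toFun f := fun u v => ∑ p, f (Fin.cons p u) (Fin.cons p v)
  map_add' f g := by
    funext u v
    simp [Finset.sum_add_distrib]
  map_smul' t f := by
    funext u v
    simp [Finset.mul_sum]

theorem Res_apply {n : ℕ} (f : V F ι (Fin (n + 1))) (u v : Fin n → ι) :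
    Res F ι n f u v = ∑ p, f (Fin.cons p u) (Fin.cons p v) := rfl

theorem Res_Jm {n : ℕ} (g : V F ι (Fin n)) :
    Res F ι n (Jm F ι n g) = (Fintype.card ι : F) • g := by
  funext u v
  rw [Res_apply]
  simp only [Jm_apply, Fin.cons_zero, if_true]
  have : ∀ (p : ι) (w : Fin n → ι), (Fin.cons p w : Fin (n + 1) → ι) ∘ Fin.succ = w := by
    intro p w
    funext i
    simp
  simp only [this, Finset.sum_const, Finset.card_univ, nsmul_eq_mul]
  rfl

theorem K_eq_Res {n : ℕ} (f : V F ι (Fin (n + 1))) (u v : Fin (n + 1) → ι) :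
    K F ι 0 f u v = Res F ι n f (u ∘ Fin.succ) (v ∘ Fin.succ) := by
  rw [K_apply, Res_apply]
  refine Finset.sum_congr rfl fun p _ => ?_
  have : ∀ w : Fin (n + 1) → ι, Function.update w 0 p = Fin.cons p (w ∘ Fin.succ) := by
    intro w
    funext x
    refine Fin.cases ?_ (fun i => ?_) x
    · simp
    · rw [Function.update_of_ne (Fin.succ_ne_zero i), Fin.cons_succ]
      rfl
  rw [this, this]

theorem Res_mem_S {n : ℕ} (f : V F ι (Fin (n + 1))) (hf : f ∈ S F ι (Fin (n + 1))) :
    Res F ι n f ∈ S F ι (Fin n) := by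
  rcases isEmpty_or_nonempty ι with hι | ⟨⟨p0⟩⟩
  · have : Res F ι n f = 0 := by
      funext u v
      rw [Res_apply]
      simp
    rw [this]
    exact zero_mem _
  have : S F ι (Fin (n + 1)) ≤ (S F ι (Fin n)).comap (Res F ι n) := by
    unfold S
    rw [Submodule.span_le]
    rintro _ ⟨σ, rfl⟩
    show Res F ι n (T F σ) ∈ S F ι (Fin n)
    set ρ := swap 0 (σ 0) * σ with hρ
    have hρ0 : ρ 0 = 0 := by rw [hρ, Equiv.Perm.mul_apply, swap_apply_right]
    obtain ⟨σ', hσ'⟩ := exists_hat ρ hρ0
    have e : Res F ι n (T F σ) = (if σ 0 = 0 then (Fintype.card ι : F) else 1) • T F σ' := by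
      funext u v
      have e1 := K_eq_Res (F := F) (T F σ) (Fin.cons p0 u) (Fin.cons p0 v)
      have e2 : ∀ w : Fin n → ι, (Fin.cons p0 w : Fin (n + 1) → ι) ∘ Fin.succ = w := by
        intro w
        funext i
        simp
      rw [e2, e2] at e1
      rw [← e1, ← Toff_empty, K_Toff ∅ σ (fun x hx => absurd hx (Finset.notMem_empty x)) 0
        (Finset.notMem_empty _)]
      show (if σ 0 = 0 then (Fintype.card ι : F) else 1) * _ =
        (if σ 0 = 0 then (Fintype.card ι : F) else 1) * _
      congr 1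
      rw [← hρ, hσ']
      unfold Toff T
      congr 1
      apply propext
      constructor
      · intro h
        funext i
        have := h i.succ (by simp [Fin.succ_ne_zero])
        rw [hat_succ, Fin.cons_succ, Fin.cons_succ] at this
        exact this
      · intro h x hx
        revert hx
        refine Fin.cases ?_ (fun i => ?_) x
        · intro hx; simp at hx
        · intro _
          rw [hat_succ, Fin.cons_succ, Fin.cons_succ]
          exact congrFun h i
    rw [e]
    exact Submodule.smul_mem _ _ (T_mem_S _)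
  exact this hf

variable [CharZero F]

theorem D_le_S [Nonempty ι] (n : ℕ) : D F ι n ≤ S F ι (Fin n) := by
  intro g hg
  have h1 : Jm F ι n g ∈ S F ι (Fin (n + 1)) := Q_le_S hg
  have h2 := Res_mem_S _ h1
  rw [Res_Jm] at h2
  have hk : (Fintype.card ι : F) ≠ 0 := Nat.cast_ne_zero.2 Fintype.card_ne_zero
  have h3 := Submodule.smul_mem _ (Fintype.card ι : F)⁻¹ h2
  rwa [smul_smul, inv_mul_cancel₀ hk, one_smul] at h3

/-- disjoint blocks in `Fin n` -/
theorem exists_blocks (n N L r : ℕ) (hn : n = L * (2 * N) + r) (w : (B N → ι) × (B N → ι)) :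
    ∃ b : Fin L → (B N ↪ Fin n),
      (∀ i j, i ≠ j → ∀ y y', b i y ≠ b j y') ∧
      Nat.card (Avoid b w) ≤
        (Fintype.card ι ^ (4 * N) - 1) ^ L * Fintype.card ι ^ (2 * r) := by
  classical
  subst hn
  have hcard : Fintype.card ((Fin L × B N) ⊕ Fin r) = Fintype.card (Fin (L * (2 * N) + r)) := by
    simp [two_mul]
  let e : (Fin L × B N) ⊕ Fin r ≃ Fin (L * (2 * N) + r) := Fintype.equivOfCardEq hcard
  refine ⟨fun j => ⟨fun y => e (Sum.inl (j, y)), ?_⟩, ?_, ?_⟩
  · intro y y' h
    have := e.injective h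
    simpa using this
  · intro i j hij y y' h
    have := e.injective h
    simp only [Sum.inl.injEq, Prod.mk.injEq] at this
    exact hij this.1
  · set b : Fin L → (B N ↪ Fin (L * (2 * N) + r)) :=
      fun j => ⟨fun y => e (Sum.inl (j, y)), _⟩ with hb
    let f : Avoid b w → (Fin L → {x : (B N → ι) × (B N → ι) // x ≠ w}) ×
        ((Fin r → ι) × (Fin r → ι)) :=
      fun q => (fun j => ⟨(q.1.1 ∘ b j, q.1.2 ∘ b j), q.2 j⟩,
        (fun i => q.1.1 (e (Sum.inr i)), fun i => q.1.2 (e (Sum.inr i))))
    have hf : Function.Injective f := by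
      rintro ⟨⟨u, v⟩, hq⟩ ⟨⟨u', v'⟩, hq'⟩ h
      simp only [f, Prod.mk.injEq] at h
      obtain ⟨h1, h2, h3⟩ := h
      have h4 : ∀ j y, u (b j y) = u' (b j y) ∧ v (b j y) = v' (b j y) := by
        intro j y
        have := congrFun h1 j
        simp only [Subtype.mk.injEq, Prod.mk.injEq] at this
        exact ⟨congrFun this.1 y, congrFun this.2 y⟩
      have h5 : u = u' := by
        funext x
        obtain ⟨z, rfl⟩ := e.surjective x
        rcases z with ⟨j, y⟩ | i
        · exact (h4 j y).1
        · exact congrFun h2 i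
      have h6 : v = v' := by
        funext x
        obtain ⟨z, rfl⟩ := e.surjective x
        rcases z with ⟨j, y⟩ | i
        · exact (h4 j y).2
        · exact congrFun h3 i
      subst h5 h6
      rfl
    have h1 := Nat.card_le_card_of_injective f hf
    refine h1.trans (le_of_eq ?_)
    rw [Nat.card_prod, Nat.card_prod, Nat.card_eq_fintype_card, Nat.card_eq_fintype_card]
    rw [Fintype.card_fun, Fintype.card_fun, Fintype.card_fin, Fintype.card_fin]
    congr 1
    · congr 1
      rw [Fintype.card_subtype_compl, Fintype.card_prod, Fintype.card_fun, Fintype.card_sum,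
        Fintype.card_fin]
      simp only [Fintype.card_unique]
      congr 1
      rw [← pow_add]
      congr 1
      ring
    · rw [← pow_add]
      congr 1
      ring

/-- the error term -/
def err (k n : ℕ) : ℕ := (k ^ (4 * (k * k)) - 1) ^ (n / (2 * (k * k))) * k ^ (2 * (2 * (k * k)))

theorem err_le (hk : 2 ≤ Fintype.card ι) (n : ℕ) :
    (Fintype.card ι ^ (4 * (Fintype.card ι * Fintype.card ι)) - 1) ^
      (n / (2 * (Fintype.card ι * Fintype.card ι))) *
      Fintype.card ι ^ (2 * (n % (2 * (Fintype.card ι * Fintype.card ι)))) ≤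
      err (Fintype.card ι) n := by
  unfold err
  apply Nat.mul_le_mul_left
  apply Nat.pow_le_pow_right (by omega)
  apply Nat.mul_le_mul_left
  exact (Nat.mod_lt _ (by positivity)).le

theorem Q_bound (hk : 2 ≤ Fintype.card ι) (n : ℕ) :
    Module.finrank F (S F ι (Fin n)) ≤
      Module.finrank F (Q F ι (Fin n)) + err (Fintype.card ι) n := by
  obtain ⟨w1, w2, hw⟩ := exists_c_ne (F := F) (ι := ι) (N := Fintype.card ι * Fintype.card ι) rfl
  have hkk : 2 ≤ Fintype.card ι * Fintype.card ι := by nlinarith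
  obtain ⟨b, hb, hcard⟩ := exists_blocks (ι := ι) n (Fintype.card ι * Fintype.card ι)
    (n / (2 * (Fintype.card ι * Fintype.card ι))) (n % (2 * (Fintype.card ι * Fintype.card ι)))
    (by rw [mul_comm]; exact (Nat.div_add_mod n _).symm) (w1, w2)
  have h1 := finrank_S_le (F := F) rfl hkk b hb (w1, w2) hw (Q F ι (Fin n))
    (fun j f hf => PiB_mem_Q rfl hkk (b j) f hf)
  rw [inf_eq_right.2 Q_le_S] at h1
  exact h1.trans (Nat.add_le_add_left (hcard.trans (err_le hk n)) _)

theorem D_bound (hk : 2 ≤ Fintype.card ι) (n : ℕ) :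
    Module.finrank F (S F ι (Fin n)) ≤
      Module.finrank F (D F ι n) + err (Fintype.card ι) n := by
  obtain ⟨w1, w2, hw⟩ := exists_c_ne (F := F) (ι := ι) (N := Fintype.card ι * Fintype.card ι) rfl
  have hkk : 2 ≤ Fintype.card ι * Fintype.card ι := by nlinarith
  obtain ⟨b, hb, hcard⟩ := exists_blocks (ι := ι) n (Fintype.card ι * Fintype.card ι)
    (n / (2 * (Fintype.card ι * Fintype.card ι))) (n % (2 * (Fintype.card ι * Fintype.card ι)))
    (by rw [mul_comm]; exact (Nat.div_add_mod n _).symm) (w1, w2)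
  have hne : Nonempty ι := Fintype.card_pos_iff.1 (by omega)
  have h1 := finrank_S_le (F := F) rfl hkk b hb (w1, w2) hw (D F ι n)
    (fun j f hf => by
      show Jm F ι n (PiB F ι (b j) f) ∈ Q F ι (Fin (n + 1))
      rw [Jm_PiB]
      exact PiB_mem_Q rfl hkk _ _ (Jm_mem_S f hf))
  rw [inf_eq_right.2 (D_le_S n)] at h1
  exact h1.trans (Nat.add_le_add_left (hcard.trans (err_le hk n)) _)

theorem D_le (hk : 2 ≤ Fintype.card ι) (n : ℕ) :
    Module.finrank F (D F ι n) ≤ Module.finrank F (S F ι (Fin n)) := by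
  have hne : Nonempty ι := Fintype.card_pos_iff.1 (by omega)
  exact Submodule.finrank_mono (D_le_S n)

theorem Q_le (n : ℕ) :
    Module.finrank F (Q F ι (Fin n)) ≤ Module.finrank F (S F ι (Fin n)) :=
  Submodule.finrank_mono Q_le_S

end

end Pool.Agent.K1H10.MC
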