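import Pool.Agent.K1H10.MC.Bridge

/-!
# The limit of the ratio of central and ordinary codimensions
-/

set_option autoImplicit false
set_option linter.unusedSectionVars false

namespace Pool.Agent.K1H10.MC

open Equiv Filter Topology

/-- the error term is negligible -/
theorem err_small (k : ℕ) (hk : 2 ≤ k) (s : ℕ → ℝ)
    (hlow : ∀ n : ℕ, (k : ℝ) ^ (2 * n) ≤ s n * ((n : ℝ) + 1) ^ (k * k)) :
    Tendsto (fun n => (err k n : ℝ) / s n) atTop (𝓝 0) := by
  have hkpos : (0 : ℝ) < k := by positivity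
  have hspos : ∀ n, 0 < s n := by
    intro n
    have h1 := hlow n
    have h2 : (0 : ℝ) < (k : ℝ) ^ (2 * n) := by positivity
    have h3 : (0 : ℝ) < ((n : ℝ) + 1) ^ (k * k) := by positivity
    by_contra hcon
    push Not at hcon
    have := mul_nonpos_of_nonpos_of_nonneg hcon h3.le
    linarith
  set m := 2 * (k * k) with hm
  have hmpos : 0 < m := by positivity
  set A : ℝ := (k : ℝ) ^ (2 * m) with hA
  have hA1 : 1 < A := by
    rw [hA]
    apply one_lt_pow₀
    · exact_mod_cast (by omega : 1 < k)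
    · omega
  set θ : ℝ := (A - 1) / A with hθ
  have hθ0 : 0 < θ := by rw [hθ]; apply div_pos <;> linarith
  have hθ1 : θ < 1 := by rw [hθ, div_lt_one (by linarith)]; linarith
  -- the root
  set r : ℝ := θ ^ ((m : ℝ)⁻¹) with hr
  have hr0 : 0 < r := Real.rpow_pos_of_pos hθ0 _
  have hr1 : r < 1 := Real.rpow_lt_one hθ0.le hθ1 (by positivity)
  have hrm : r ^ m = θ := Real.rpow_inv_natCast_pow hθ0.le hmpos.ne'
  have herr : ∀ n, (err k n : ℝ) = (A - 1) ^ (n / m) * (k : ℝ) ^ (2 * m) := by
    intro n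
    unfold err
    have h1 : 1 ≤ k ^ (4 * (k * k)) := Nat.one_le_pow _ _ (by omega)
    push_cast [Nat.cast_sub h1]
    rw [hA, hm]
    ring_nf
  have hbound : ∀ n, (err k n : ℝ) / s n ≤
      ((k : ℝ) ^ (2 * m) / r ^ m) * (((n : ℝ) + 1) ^ (k * k) * r ^ n) := by
    intro n
    rw [div_le_iff₀ (hspos n), herr]
    have h1 : (A - 1) ^ (n / m) = θ ^ (n / m) * A ^ (n / m) := by
      rw [← mul_pow, hθ, div_mul_cancel₀ _ (by linarith)]
    have h2 : A ^ (n / m) ≤ (k : ℝ) ^ (2 * n) := by
      rw [hA, ← pow_mul]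
      apply pow_le_pow_right₀
      · exact_mod_cast (by omega : 1 ≤ k)
      · have := Nat.div_mul_le_self n m
        nlinarith
    have h3 : θ ^ (n / m) ≤ r ^ n / r ^ m := by
      rw [le_div_iff₀ (by positivity), ← hrm, ← pow_mul, ← pow_add]
      apply pow_le_pow_of_le_one hr0.le hr1.le
      have h4 := Nat.div_add_mod n m
      have h5 := Nat.mod_lt n hmpos
      omega
    calc (A - 1) ^ (n / m) * (k : ℝ) ^ (2 * m)
        = θ ^ (n / m) * A ^ (n / m) * (k : ℝ) ^ (2 * m) := by rw [h1]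
      _ ≤ (r ^ n / r ^ m) * (k : ℝ) ^ (2 * n) * (k : ℝ) ^ (2 * m) := by
          gcongr
      _ ≤ (r ^ n / r ^ m) * (s n * ((n : ℝ) + 1) ^ (k * k)) * (k : ℝ) ^ (2 * m) := by
          have := hlow n
          gcongr
      _ = _ := by ring
  have hlim : Tendsto (fun n : ℕ => ((k : ℝ) ^ (2 * m) / r ^ m) *
      (((n : ℝ) + 1) ^ (k * k) * r ^ n)) atTop (𝓝 0) := by
    have h1 := tendsto_pow_const_mul_const_pow_of_abs_lt_one (k * k)
      (show |r| < 1 by rw [abs_of_pos hr0]; exact hr1)
    have h2 := (tendsto_add_atTop_iff_nat 1).2 h1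
    have h3 := h2.const_mul ((k : ℝ) ^ (2 * m) / r ^ m * r⁻¹)
    rw [mul_zero] at h3
    refine h3.congr fun n => ?_
    push_cast
    rw [pow_succ r n]
    field_simp
  refine squeeze_zero (fun n => ?_) hbound hlim
  exact div_nonneg (Nat.cast_nonneg _) (hspos n).le

section

variable (F : Type) [Field F] [CharZero F] (k : ℕ)

theorem s_ratio (hk : 2 ≤ k) :
    Tendsto (fun n => (Module.finrank F (S F (Fin k) (Fin n)) : ℝ) /
      (Module.finrank F (S F (Fin k) (Fin (n + 1))) : ℝ)) atTop (𝓝 (1 / (k : ℝ) ^ 2)) := by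
  have hne : Nonempty (Fin k) := ⟨⟨0, by omega⟩⟩
  have hk2 : (2 : ℝ) ≤ k := by exact_mod_cast hk
  have h := ratio_limit (fun n => (Module.finrank F (S F (Fin k) (Fin n)) : ℝ))
    ((k : ℝ) ^ 2 - 1) (by nlinarith) (k * k)
    (fun n J => (dX F (Fin k) J : ℝ)) (fun n J => Nat.cast_nonneg _) ?_ ?_ ?_ ?_
  · simpa using h
  · intro n J
    have h1 := dX_le (F := F) (ι := Fin k) J
    rw [Fintype.card_fin] at h1
    have h2 : ((k ^ 2 - 1 : ℕ) : ℝ) = (k : ℝ) ^ 2 - 1 := by
      rw [Nat.cast_sub (Nat.one_le_pow _ _ (by omega))]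
      push_cast
      ring
    rw [← h2]
    exact_mod_cast h1
  · intro n
    have h1 := S_sum (F := F) (ι := Fin k) (α := Fin n)
    exact_mod_cast h1
  · intro n
    have h1 := S_rec (F := F) (ι := Fin k) n
    have h2 : ((n : ℝ) + 1) * (Module.finrank F (S F (Fin k) (Fin n)) : ℝ) =
        (((n + 1) * Module.finrank F (S F (Fin k) (Fin n)) : ℕ) : ℝ) := by push_cast; ring
    rw [h2, h1]
    push_cast
    refine Finset.sum_congr rfl fun J _ => ?_
    congr 1
    have h3 := Finset.card_le_univ J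
    rw [Fintype.card_fin] at h3
    rw [Nat.cast_sub h3]
    push_cast
    ring
  · intro n
    have h1 := lower (ι := Fin k) F n
    rw [Fintype.card_fin] at h1
    have h2 : (1 + ((k : ℝ) ^ 2 - 1)) ^ n = ((k ^ (2 * n) : ℕ) : ℝ) := by
      push_cast
      rw [pow_mul]
      congr 1
      ring
    rw [h2]
    exact_mod_cast h1

/-- **The limit.** -/
theorem main_limit (hk : 2 ≤ k) :
    Tendsto (fun n => (Module.finrank F (D F (Fin k) n) : ℝ) /
      (Module.finrank F (Q F (Fin k) (Fin (n + 1))) : ℝ)) atTop (𝓝 (1 / (k : ℝ) ^ 2)) := by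
  set s : ℕ → ℝ := fun n => (Module.finrank F (S F (Fin k) (Fin n)) : ℝ) with hs
  have hlow : ∀ n : ℕ, (k : ℝ) ^ (2 * n) ≤ s n * ((n : ℝ) + 1) ^ (k * k) := by
    intro n
    have h1 := lower (ι := Fin k) F n
    rw [Fintype.card_fin] at h1
    simp only [hs]
    exact_mod_cast h1
  have hspos : ∀ n, 0 < s n := by
    intro n
    have h1 := hlow n
    have h2 : (0 : ℝ) < (k : ℝ) ^ (2 * n) := by
      have : (0 : ℝ) < k := by exact_mod_cast (by omega : 0 < k)
      positivity
    have h3 : (0 : ℝ) < ((n : ℝ) + 1) ^ (k * k) := by positivity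
    by_contra hcon
    push Not at hcon
    have := mul_nonpos_of_nonpos_of_nonneg hcon h3.le
    linarith
  have herr := err_small k hk s hlow
  have hkc : 2 ≤ Fintype.card (Fin k) := by rw [Fintype.card_fin]; exact hk
  -- `D / S → 1`
  have hD : Tendsto (fun n => (Module.finrank F (D F (Fin k) n) : ℝ) / s n) atTop (𝓝 1) := by
    have h1 : Tendsto (fun n => 1 - (err k n : ℝ) / s n) atTop (𝓝 1) := by
      have := herr.const_sub 1
      simpa using this
    refine tendsto_of_tendsto_of_tendsto_of_le_of_le h1 tendsto_const_nhds ?_ ?_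
    · intro n
      have h2 := D_bound (F := F) hkc n
      rw [Fintype.card_fin] at h2
      have h3 : s n ≤ (Module.finrank F (D F (Fin k) n) : ℝ) + (err k n : ℝ) := by
        simp only [hs]
        exact_mod_cast h2
      show 1 - (err k n : ℝ) / s n ≤ _
      rw [le_div_iff₀ (hspos n), sub_mul, div_mul_cancel₀ _ (hspos n).ne', one_mul]
      linarith
    · intro n
      have h2 := D_le (F := F) hkc n
      have h3 : (Module.finrank F (D F (Fin k) n) : ℝ) ≤ s n := by
        simp only [hs]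
        exact_mod_cast h2
      show _ ≤ (1 : ℝ)
      rw [div_le_one (hspos n)]
      exact h3
  -- `Q / S → 1`
  have hQ : Tendsto (fun n => (Module.finrank F (Q F (Fin k) (Fin n)) : ℝ) / s n)
      atTop (𝓝 1) := by
    have h1 : Tendsto (fun n => 1 - (err k n : ℝ) / s n) atTop (𝓝 1) := by
      have := herr.const_sub 1
      simpa using this
    refine tendsto_of_tendsto_of_tendsto_of_le_of_le h1 tendsto_const_nhds ?_ ?_
    · intro n
      have h2 := Q_bound (F := F) hkc n
      rw [Fintype.card_fin] at h2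
      have h3 : s n ≤ (Module.finrank F (Q F (Fin k) (Fin n)) : ℝ) + (err k n : ℝ) := by
        simp only [hs]
        exact_mod_cast h2
      show 1 - (err k n : ℝ) / s n ≤ _
      rw [le_div_iff₀ (hspos n), sub_mul, div_mul_cancel₀ _ (hspos n).ne', one_mul]
      linarith
    · intro n
      have h2 := Q_le (F := F) (ι := Fin k) n
      have h3 : (Module.finrank F (Q F (Fin k) (Fin n)) : ℝ) ≤ s n := by
        simp only [hs]
        exact_mod_cast h2
      show _ ≤ (1 : ℝ)
      rw [div_le_one (hspos n)]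
      exact h3
  have hQ' := (tendsto_add_atTop_iff_nat 1).2 hQ
  have hR := s_ratio F k hk
  have h := (hD.mul hR).div hQ' one_ne_zero
  rw [one_mul, div_one] at h
  refine h.congr fun n => ?_
  have h1 := (hspos n).ne'
  have h2 := (hspos (n + 1)).ne'
  show (Module.finrank F (D F (Fin k) n) : ℝ) / s n * (s n / s (n + 1)) /
    ((Module.finrank F (Q F (Fin k) (Fin (n + 1))) : ℝ) / s (n + 1)) = _
  field_simp

end

end Pool.Agent.K1H10.MC
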