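import Pool.Agent.K1H10.MC.Count

/-!
# Splitting the trace functions
-/

set_option autoImplicit false
set_option linter.unusedSectionVars false

namespace Pool.Agent.K1H10.MC

open Equiv

section

variable {F : Type} [Field F] {ι : Type} [DecidableEq ι] [Fintype ι]
  {α : Type} [Fintype α] [DecidableEq α]

/-- the projection to the functions which are the trace in the variable `i` -/
def P (F : Type) [Field F] (ι : Type) [DecidableEq ι] [Fintype ι] {α : Type} [DecidableEq α]
    (i : α) : V F ι α →ₗ[F] V F ι α where
  toFun f := fun u v => if u i = v i then (Fintype.card ι : F)⁻¹ * K F ι i f u v else 0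
  map_add' f g := by
    funext u v
    simp only [map_add, Pi.add_apply]
    split_ifs <;> ring
  map_smul' t f := by
    funext u v
    simp only [map_smul, Pi.smul_apply, smul_eq_mul, RingHom.id_apply]
    split_ifs <;> ring

theorem P_apply (i : α) (f : V F ι α) (u v : α → ι) :
    P F ι i f u v = if u i = v i then (Fintype.card ι : F)⁻¹ * K F ι i f u v else 0 := rfl

theorem K_update (i : α) (f : V F ι α) (u v : α → ι) (p q : ι) :
    K F ι i f (Function.update u i p) (Function.update v i q) = K F ι i f u v := by
  rw [K_apply, K_apply]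
  simp

theorem K_P [CharZero F] [Nonempty ι] (i : α) (f : V F ι α) : K F ι i (P F ι i f) = K F ι i f := by
  funext u v
  rw [K_apply]
  simp only [P_apply, Function.update_self, if_true, K_update]
  rw [Finset.sum_const, Finset.card_univ, nsmul_eq_mul, ← mul_assoc,
    mul_inv_cancel₀ (Nat.cast_ne_zero.2 Fintype.card_ne_zero), one_mul]

theorem P_P [CharZero F] [Nonempty ι] (i : α) (f : V F ι α) : P F ι i (P F ι i f) = P F ι i f := by
  funext u v
  rw [P_apply, P_apply, K_P]

theorem P_comm (i j : α) (f : V F ι α) : P F ι i (P F ι j f) = P F ι j (P F ι i f) := by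
  by_cases hij : i = j
  · subst hij; rfl
  have hji : j ≠ i := fun h => hij h.symm
  funext u v
  simp only [P_apply, K_apply, Function.update_of_ne hij, Function.update_of_ne hji]
  by_cases h1 : u i = v i <;> by_cases h2 : u j = v j
  · simp only [h1, h2, if_true, Finset.mul_sum]
    rw [Finset.sum_comm]
    refine Finset.sum_congr rfl fun p _ => Finset.sum_congr rfl fun q _ => ?_
    rw [Function.update_comm hij, Function.update_comm hij]
  · simp [h1, h2]
  · simp [h1, h2]
  · simp [h1, h2]

theorem P_eq_zero_iff [CharZero F] [Nonempty ι] (i : α) (f : V F ι α) :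
    P F ι i f = 0 ↔ K F ι i f = 0 := by
  constructor
  · intro h
    rw [← K_P, h, map_zero]
  · intro h
    funext u v
    rw [P_apply, h]
    simp

theorem P_T (i : α) (σ : Perm α) : P F ι i (T F σ) =
    ((Fintype.card ι : F)⁻¹ * (if σ i = i then (Fintype.card ι : F) else 1)) •
      T F (swap i (σ i) * σ) := by
  funext u v
  rw [P_apply, ← Toff_empty, K_Toff ∅ σ (fun x hx => absurd hx (Finset.notMem_empty x)) i
        (Finset.notMem_empty _)]
  set ρ := swap i (σ i) * σ with hρ
  have hρi : ρ i = i := by rw [hρ, Equiv.Perm.mul_apply, swap_apply_right]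
  show (if u i = v i then (Fintype.card ι : F)⁻¹ *
    ((if σ i = i then (Fintype.card ι : F) else 1) * Toff F (insert i ∅) ρ u v) else 0) =
    (Fintype.card ι : F)⁻¹ * (if σ i = i then (Fintype.card ι : F) else 1) * T F ρ u v
  have key : (if u i = v i then Toff F (insert i ∅) ρ u v else 0) = T F ρ u v := by
    unfold Toff T
    by_cases h : u i = v i
    · rw [if_pos h]
      congr 1
      apply propext
      constructor
      · intro h1
        funext x
        by_cases hx : x = i
        · subst hx
          rw [Function.comp, hρi, h]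
        · exact h1 x (by simpa using hx)
      · intro h1 x _
        exact congrFun h1 x
    · rw [if_neg h, if_neg]
      intro h1
      have := congrFun h1 i
      rw [Function.comp, hρi] at this
      exact h this.symm
  rw [← key]
  by_cases h : u i = v i
  · simp only [if_pos h]; ring
  · simp only [if_neg h]; ring

theorem P_mem_S (i : α) (f : V F ι α) (hf : f ∈ S F ι α) : P F ι i f ∈ S F ι α := by
  have : S F ι α ≤ (S F ι α).comap (P F ι i) := by
    unfold S
    rw [Submodule.span_le]
    rintro _ ⟨σ, rfl⟩
    show P F ι i (T F σ) ∈ S F ι α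
    rw [P_T]
    exact Submodule.smul_mem _ _ (T_mem_S _)
  exact this hf

/-- the simultaneous eigenspaces of the projections in the trace functions -/
def X (F : Type) [Field F] (ι : Type) [DecidableEq ι] [Fintype ι] {α : Type} [Fintype α]
    [DecidableEq α] (A Z : Finset α) : Submodule F (V F ι α) where
  carrier := {f | f ∈ S F ι α ∧ (∀ i ∈ A, P F ι i f = f) ∧ ∀ i ∈ Z, P F ι i f = 0}
  add_mem' := by
    rintro f g ⟨h1, h2, h3⟩ ⟨h4, h5, h6⟩
    refine ⟨add_mem h1 h4, fun i hi => ?_, fun i hi => ?_⟩
    · rw [map_add, h2 i hi, h5 i hi]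
    · rw [map_add, h3 i hi, h6 i hi, add_zero]
  zero_mem' := ⟨zero_mem _, fun _ _ => map_zero _, fun _ _ => map_zero _⟩
  smul_mem' := by
    rintro t f ⟨h1, h2, h3⟩
    refine ⟨Submodule.smul_mem _ _ h1, fun i hi => ?_, fun i hi => ?_⟩
    · rw [map_smul, h2 i hi]
    · rw [map_smul, h3 i hi, smul_zero]

theorem mem_X (A Z : Finset α) (f : V F ι α) :
    f ∈ X F ι A Z ↔ f ∈ S F ι α ∧ (∀ i ∈ A, P F ι i f = f) ∧ ∀ i ∈ Z, P F ι i f = 0 := Iff.rfl

theorem X_empty : X F ι (∅ : Finset α) ∅ = S F ι α := by
  ext f
  rw [mem_X]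
  simp

variable [CharZero F] [Nonempty ι]

theorem X_split (A Z : Finset α) (i : α) :
    Module.finrank F (X F ι A Z) = Module.finrank F (X F ι (insert i A) Z) +
      Module.finrank F (X F ι A (insert i Z)) := by
  have h1 : X F ι A Z = X F ι (insert i A) Z ⊔ X F ι A (insert i Z) := by
    apply le_antisymm
    · rintro f ⟨h1, h2, h3⟩
      have e : f = P F ι i f + (f - P F ι i f) := by abel
      rw [e]
      apply Submodule.add_mem_sup
      · refine ⟨P_mem_S i f h1, ?_, ?_⟩
        · intro j hj
          rcases Finset.mem_insert.1 hj with rfl | hj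
          · exact P_P _ _
          · rw [P_comm, h2 j hj]
        · intro j hj
          rw [P_comm, h3 j hj, map_zero]
      · refine ⟨sub_mem h1 (P_mem_S i f h1), ?_, ?_⟩
        · intro j hj
          rw [map_sub, P_comm, h2 j hj]
        · intro j hj
          rw [map_sub]
          rcases Finset.mem_insert.1 hj with rfl | hj
          · rw [P_P, sub_self]
          · rw [P_comm, h3 j hj, map_zero, sub_zero]
    · apply sup_le
      · rintro f ⟨h1, h2, h3⟩
        exact ⟨h1, fun j hj => h2 j (Finset.mem_insert_of_mem hj), h3⟩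
      · rintro f ⟨h1, h2, h3⟩
        exact ⟨h1, h2, fun j hj => h3 j (Finset.mem_insert_of_mem hj)⟩
  have h2 : X F ι (insert i A) Z ⊓ X F ι A (insert i Z) = ⊥ := by
    rw [eq_bot_iff]
    rintro f ⟨⟨-, h2, -⟩, ⟨-, -, h3⟩⟩
    rw [Submodule.mem_bot, ← h2 i (Finset.mem_insert_self _ _), h3 i (Finset.mem_insert_self _ _)]
  have h3 := Submodule.finrank_sup_add_finrank_inf_eq (X F ι (insert i A) Z)
    (X F ι A (insert i Z))
  rw [h2, finrank_bot, add_zero, ← h1] at h3
  exact h3

theorem X_congr {A A' Z Z' : Finset α} (h : A = A') (h' : Z = Z') :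
    Module.finrank F (X F ι A Z) = Module.finrank F (X F ι A' Z') := by
  subst h h'
  rfl

theorem X_sum (Y : Finset α) : ∀ A Z : Finset α,
    Module.finrank F (X F ι A Z) =
      ∑ J ∈ Y.powerset, Module.finrank F (X F ι (A ∪ (Y \ J)) (Z ∪ J)) := by
  induction Y using Finset.induction_on with
  | empty =>
    intro A Z
    rw [Finset.powerset_empty, Finset.sum_singleton]
    exact X_congr (by simp) (by simp)
  | insert i Y hi ih =>
    intro A Z
    rw [X_split A Z i, ih (insert i A) Z, ih A (insert i Z), Finset.sum_powerset_insert hi]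
    congr 1
    · refine Finset.sum_congr rfl fun J hJ => ?_
      have hiJ : i ∉ J := fun h => hi (Finset.mem_powerset.1 hJ h)
      apply X_congr _ rfl
      rw [Finset.insert_sdiff_of_notMem _ hiJ, Finset.insert_union, Finset.union_insert]
    · refine Finset.sum_congr rfl fun J hJ => ?_
      apply X_congr
      · rw [Finset.insert_sdiff_insert, Finset.sdiff_insert_of_notMem hi]
      · rw [Finset.insert_union, Finset.union_insert]

/-- the dimension of the part of the trace functions with support `J` -/
noncomputable def dX (F : Type) [Field F] (ι : Type) [DecidableEq ι] [Fintype ι] {α : Type}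
    [Fintype α] [DecidableEq α] (J : Finset α) : ℕ := Module.finrank F (X F ι Jᶜ J)

theorem S_sum : Module.finrank F (S F ι α) = ∑ J : Finset α, dX F ι J := by
  rw [← X_empty, X_sum Finset.univ ∅ ∅, Finset.powerset_univ]
  refine Finset.sum_congr rfl fun J _ => ?_
  exact X_congr (by rw [Finset.empty_union, ← Finset.compl_eq_univ_sdiff]) (Finset.empty_union _)

theorem X_single (i : α) : Module.finrank F (X F ι {i} (∅ : Finset α)) =
    ∑ J ∈ Finset.univ.filter (fun J : Finset α => i ∉ J), dX F ι J := by
  rw [X_sum (Finset.univ.erase i) {i} ∅]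
  have : (Finset.univ.erase i).powerset = Finset.univ.filter (fun J : Finset α => i ∉ J) := by
    ext J
    simp only [Finset.mem_powerset, Finset.mem_filter, Finset.mem_univ, true_and]
    constructor
    · intro h hi
      exact (Finset.mem_erase.1 (h hi)).1 rfl
    · intro h x hx
      exact Finset.mem_erase.2 ⟨fun h' => h (h' ▸ hx), Finset.mem_univ _⟩
  rw [this]
  refine Finset.sum_congr rfl fun J hJ => ?_
  refine X_congr ?_ (Finset.empty_union _)
  ext x
  simp only [Finset.mem_union, Finset.mem_singleton, Finset.mem_sdiff, Finset.mem_erase,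
    Finset.mem_univ, and_true, Finset.mem_compl]
  have hiJ : i ∉ J := (Finset.mem_filter.1 hJ).2
  constructor
  · rintro (rfl | ⟨-, h⟩)
    · exact hiJ
    · exact h
  · intro h
    by_cases hx : x = i
    · exact Or.inl hx
    · exact Or.inr ⟨hx, h⟩

/-- the set of words which determine a function in `X Jᶜ J` -/
def GG (J : Finset α) (p0 : ι) : Set ((α → ι) × (α → ι)) :=
  {q | (∀ i ∈ J, (q.1 i, q.2 i) ≠ (p0, p0)) ∧ ∀ i, i ∉ J → (q.1 i, q.2 i) = (p0, p0)}

theorem X_zero (J : Finset α) (p0 : ι) (f : V F ι α) (hf : f ∈ X F ι Jᶜ J)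
    (h0 : ∀ q ∈ GG J p0, f q.1 q.2 = 0) : f = 0 := by
  obtain ⟨-, h2, h3⟩ := hf
  have key : ∀ (n : ℕ) (u v : α → ι),
      (Finset.univ.filter (fun i => (i ∈ J ∧ (u i, v i) = (p0, p0)) ∨
        (i ∉ J ∧ (u i, v i) ≠ (p0, p0)))).card = n → f u v = 0 := by
    intro n
    induction n using Nat.strong_induction_on with
    | _ n ih =>
      intro u v hn
      by_cases hA : (u, v) ∈ GG J p0
      · exact h0 _ hA
      obtain ⟨i, hi⟩ : ∃ i, (i ∈ J ∧ (u i, v i) = (p0, p0)) ∨
          (i ∉ J ∧ (u i, v i) ≠ (p0, p0)) := by
        by_contra hcon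
        push Not at hcon
        apply hA
        refine ⟨fun i hi => (hcon i).1 hi, fun i hi => (hcon i).2 hi⟩
      -- changing the coordinate `i` to a good one
      have hgood : ∀ p q : ι, (i ∈ J → (p, q) ≠ (p0, p0)) → (i ∉ J → (p, q) = (p0, p0)) →
          f (Function.update u i p) (Function.update v i q) = 0 := by
        intro p q hp hq
        refine ih _ ?_ _ _ rfl
        rw [← hn]
        apply Finset.card_lt_card
        rw [Finset.ssubset_iff_of_subset]
        · refine ⟨i, by simpa using hi, ?_⟩
          simp only [Finset.mem_filter, Finset.mem_univ, true_and, Function.update_self]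
          rintro (⟨h, h'⟩ | ⟨h, h'⟩)
          · exact hp h h'
          · exact h' (hq h)
        · intro j hj
          simp only [Finset.mem_filter, Finset.mem_univ, true_and] at hj ⊢
          by_cases hij : j = i
          · subst hij; exact hi
          · rwa [Function.update_of_ne hij, Function.update_of_ne hij] at hj
      rcases hi with ⟨hiJ, hi⟩ | ⟨hiJ, hi⟩
      · have h4 := (P_eq_zero_iff i f).1 (h3 i hiJ)
        have h5 := congrFun (congrFun h4 u) v
        rw [K_apply, Finset.sum_eq_single p0] at h5
        · have hu : u i = p0 := congrArg Prod.fst hi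
          have hv : v i = p0 := congrArg Prod.snd hi
          have e1 : Function.update u i p0 = u := by
            rw [← hu]; exact Function.update_eq_self i u
          have e2 : Function.update v i p0 = v := by
            rw [← hv]; exact Function.update_eq_self i v
          rw [e1, e2] at h5
          exact h5
        · intro p _ hp
          exact hgood p p (fun _ h => hp (congrArg Prod.fst h)) (fun h => absurd hiJ h)
        · intro h; exact absurd (Finset.mem_univ _) h
      · have h4 := h2 i (Finset.mem_compl.2 hiJ)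
        have h5 := congrFun (congrFun h4 u) v
        have h6 := congrFun (congrFun h4 (Function.update u i p0)) (Function.update v i p0)
        rw [P_apply] at h5 h6
        rw [K_update, Function.update_self, Function.update_self, if_pos rfl,
          hgood p0 p0 (fun h => absurd h hiJ) (fun _ => rfl)] at h6
        rw [← h5]
        split_ifs
        · exact h6
        · rfl
  funext u v
  exact key _ u v rfl

theorem dX_le (J : Finset α) : dX F ι J ≤ (Fintype.card ι ^ 2 - 1) ^ J.card := by
  classical
  obtain ⟨p0⟩ := ‹Nonempty ι›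
  have hne : Nonempty ι := ⟨p0⟩
  let res : X F ι Jᶜ J →ₗ[F] (GG J p0 → F) :=
    { toFun := fun f q => f.1 q.1.1 q.1.2
      map_add' := fun _ _ => rfl
      map_smul' := fun _ _ => rfl }
  have hinj : Function.Injective res := by
    rw [injective_iff_map_eq_zero]
    intro f hf
    apply Subtype.ext
    apply X_zero J p0 f.1 f.2
    intro q hq
    exact congrFun hf ⟨q, hq⟩
  have h1 := LinearMap.finrank_le_finrank_of_injective hinj
  rw [Module.finrank_fintype_fun_eq_card] at h1
  refine h1.trans ?_
  let f : GG J p0 → (J → {x : ι × ι // x ≠ (p0, p0)}) :=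
    fun q i => ⟨(q.1.1 i, q.1.2 i), q.2.1 i i.2⟩
  have hf : Function.Injective f := by
    rintro ⟨⟨u, v⟩, hq⟩ ⟨⟨u', v'⟩, hq'⟩ h
    have h4 : ∀ i, (u i, v i) = (u' i, v' i) := by
      intro i
      by_cases hi : i ∈ J
      · have := congrFun h ⟨i, hi⟩
        simpa [f] using this
      · exact (hq.2 i hi).trans (hq'.2 i hi).symm
    have h5 : u = u' := funext fun i => congrArg Prod.fst (h4 i)
    have h6 : v = v' := funext fun i => congrArg Prod.snd (h4 i)
    subst h5 h6
    rfl
  have h2 := Fintype.card_le_of_injective f hf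
  refine h2.trans (le_of_eq ?_)
  rw [Fintype.card_fun, Fintype.card_subtype_compl, Fintype.card_prod, Fintype.card_coe]
  simp only [Fintype.card_unique]
  rw [pow_two]

end

section

variable {F : Type} [Field F] {ι : Type} [DecidableEq ι] [Fintype ι] [CharZero F] [Nonempty ι]

theorem finrank_X_zero (n : ℕ) : Module.finrank F (X F ι {(0 : Fin (n + 1))} ∅) =
    Module.finrank F (S F ι (Fin n)) := by
  have h : X F ι {(0 : Fin (n + 1))} ∅ = (S F ι (Fin n)).map (Jm F ι n) := by
    apply le_antisymm
    · rintro f ⟨h1, h2, -⟩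
      refine ⟨(Fintype.card ι : F)⁻¹ • Res F ι n f, Submodule.smul_mem _ _ (Res_mem_S f h1), ?_⟩
      rw [← h2 0 (Finset.mem_singleton_self _)]
      funext u v
      rw [Jm_apply, P_apply, K_eq_Res]
      rw [h2 0 (Finset.mem_singleton_self _)]
      rfl
    · rintro _ ⟨g, hg, rfl⟩
      refine ⟨Jm_mem_S g hg, ?_, fun i hi => absurd hi (Finset.notMem_empty i)⟩
      intro i hi
      rw [Finset.mem_singleton.1 hi]
      funext u v
      rw [P_apply, K_eq_Res, Res_Jm, Jm_apply]
      congr 1
      show (Fintype.card ι : F)⁻¹ * ((Fintype.card ι : F) * _) = _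
      rw [← mul_assoc, inv_mul_cancel₀ (Nat.cast_ne_zero.2 Fintype.card_ne_zero), one_mul]
  rw [h]
  exact (Submodule.equivMapOfInjective (Jm F ι n) Jm_inj (S F ι (Fin n))).finrank_eq.symm

/-- renaming the variables -/
def E (F : Type) [Field F] (ι : Type) {α : Type} (e : Perm α) : V F ι α ≃ₗ[F] V F ι α where
  toFun f := fun u v => f (u ∘ e) (v ∘ e)
  invFun f := fun u v => f (u ∘ e.symm) (v ∘ e.symm)
  map_add' _ _ := rfl
  map_smul' _ _ := rfl
  left_inv f := by
    funext u v
    show f ((u ∘ e.symm) ∘ e) ((v ∘ e.symm) ∘ e) = f u v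
    congr 1 <;> (funext x; simp)
  right_inv f := by
    funext u v
    show f ((u ∘ e) ∘ e.symm) ((v ∘ e) ∘ e.symm) = f u v
    congr 1 <;> (funext x; simp)

theorem E_apply {α : Type} (e : Perm α) (f : V F ι α) (u v : α → ι) :
    E F ι e f u v = f (u ∘ e) (v ∘ e) := rfl

theorem E_T {α : Type} [Fintype α] [DecidableEq α] (e : Perm α) (σ : Perm α) :
    E F ι e (T F σ) = T F (e * σ * e⁻¹) := by
  funext u v
  rw [E_apply]
  unfold T
  congr 1
  apply propext
  constructor
  · intro h
    funext x
    have := congrFun h (e⁻¹ x)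
    simpa using this
  · intro h
    funext x
    have := congrFun h (e x)
    simpa using this

theorem E_mem_S {α : Type} [Fintype α] [DecidableEq α] (e : Perm α) (f : V F ι α)
    (hf : f ∈ S F ι α) : E F ι e f ∈ S F ι α := by
  have : S F ι α ≤ (S F ι α).comap (E F ι e).toLinearMap := by
    unfold S
    rw [Submodule.span_le]
    rintro _ ⟨σ, rfl⟩
    show E F ι e (T F σ) ∈ S F ι α
    rw [E_T]
    exact T_mem_S _
  exact this hf

theorem E_K {α : Type} [Fintype α] [DecidableEq α] (e : Perm α) (i : α) (f : V F ι α) :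
    K F ι (e i) (E F ι e f) = E F ι e (K F ι i f) := by
  funext u v
  rw [K_apply, E_apply, K_apply]
  refine Finset.sum_congr rfl fun p _ => ?_
  rw [E_apply]
  have : ∀ w : α → ι, Function.update w (e i) p ∘ e = Function.update (w ∘ e) i p := by
    intro w
    funext x
    by_cases hx : x = i
    · subst hx; simp
    · rw [Function.comp, Function.update_of_ne (fun h => hx (e.injective h)),
        Function.update_of_ne hx]
      rfl
  rw [this, this]

theorem E_P {α : Type} [Fintype α] [DecidableEq α] (e : Perm α) (i : α) (f : V F ι α) :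
    P F ι (e i) (E F ι e f) = E F ι e (P F ι i f) := by
  funext u v
  rw [P_apply, E_K, E_apply, E_apply, P_apply]
  rfl

theorem finrank_X_single {α : Type} [Fintype α] [DecidableEq α] (e : Perm α) (i : α) :
    Module.finrank F (X F ι {e i} ∅) = Module.finrank F (X F ι {i} ∅) := by
  have key : ∀ (e : Perm α) (i : α), Module.finrank F (X F ι {i} ∅) ≤
      Module.finrank F (X F ι {e i} ∅) := by
    intro e i
    have h1 : (X F ι {i} ∅).map (E F ι e).toLinearMap ≤ X F ι {e i} ∅ := by
      rintro _ ⟨f, ⟨h1, h2, -⟩, rfl⟩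
      refine ⟨E_mem_S e f h1, ?_, fun j hj => absurd hj (Finset.notMem_empty j)⟩
      intro j hj
      rw [Finset.mem_singleton.1 hj]
      show P F ι (e i) (E F ι e f) = E F ι e f
      rw [E_P, h2 i (Finset.mem_singleton_self _)]
    have h2 := Submodule.finrank_mono h1
    rwa [LinearEquiv.finrank_map_eq] at h2
  apply le_antisymm
  · have h3 := key e.symm (e i)
    rwa [symm_apply_apply] at h3
  · exact key e i

/-- **The recursion.** `N s_{N-1} = ∑ (N - |J|) d_J` -/
theorem S_rec (n : ℕ) : (n + 1) * Module.finrank F (S F ι (Fin n)) =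
    ∑ J : Finset (Fin (n + 1)), (n + 1 - J.card) * dX F ι J := by
  have h1 : ∀ i : Fin (n + 1), Module.finrank F (S F ι (Fin n)) =
      ∑ J ∈ Finset.univ.filter (fun J : Finset (Fin (n + 1)) => i ∉ J), dX F ι J := by
    intro i
    rw [← X_single, ← finrank_X_zero]
    have := finrank_X_single (F := F) (ι := ι) (swap 0 i) 0
    rw [swap_apply_left] at this
    exact this.symm
  have h2 : (n + 1) * Module.finrank F (S F ι (Fin n)) =
      ∑ i : Fin (n + 1), Module.finrank F (S F ι (Fin n)) := by
    rw [Finset.sum_const, Finset.card_univ, Fintype.card_fin, smul_eq_mul]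
  rw [h2, Finset.sum_congr rfl (fun i _ => h1 i)]
  simp only [Finset.sum_filter]
  rw [Finset.sum_comm]
  refine Finset.sum_congr rfl fun J _ => ?_
  rw [← Finset.sum_filter, Finset.sum_const, smul_eq_mul]
  congr 1
  have : Finset.univ.filter (fun i : Fin (n + 1) => i ∉ J) = Jᶜ := by
    ext x; simp
  rw [this, Finset.card_compl, Fintype.card_fin]

end

end Pool.Agent.K1H10.MC
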